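import Mathlib

/-!
# Quotients of the Lelek fan by pairing end points: a negative answer

For every Lelek fan `L` there are two pairings whose decompositions are upper semicontinuous (both
are even null: the distances of the paired end points tend to zero) and whose quotient spaces are
not homeomorphic.

* The first pairing is chosen one pair at a time, so that at stage `n` the two new points are much
  closer to each other than the gaps seen by `ε`-chains between the end points chosen before. Every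
  compact connected subset of the quotient that misses the image of the top then lies over a single
  ray or over the two rays of a single pair (`nice_alternative`), so it contains no triod
  (`nice_no_triod`).
* The second pairing contains the pairs of end points of the gaps of a Cantor set of end points.
  The Cantor set becomes an arc in the quotient, all of whose dyadic points are ends of rays. This
  gives two disjoint triods (`exists_triod`, `triods_disjoint`); a homeomorphism to the first
  quotient would place the image of the top in both of them.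
-/

namespace Pool.Agent.Results.MP_211c6f_gt.NullPairings

open Set Filter Topology

universe u
variable {L : Type u} [MetricSpace L]

/-- `A` is an arc in `L` with end points `x` and `y`. -/
def IsArc (A : Set L) (x y : L) : Prop :=
  ∃ γ : unitInterval → L, Continuous γ ∧ Function.Injective γ ∧ γ 0 = x ∧ γ 1 = y ∧ range γ = A

/-- `A` is the point `x = y` or an arc with end points `x` and `y`. -/
def IsArcOrPoint (A : Set L) (x y : L) : Prop := (x = y ∧ A = {x}) ∨ IsArc A x y

/-- `p` is a ramification point: the common end point of three arcs that are otherwise pairwise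
disjoint. -/
def IsRamificationPoint (p : L) : Prop :=
  ∃ (x₁ x₂ x₃ : L) (A₁ A₂ A₃ : Set L), IsArc A₁ p x₁ ∧ IsArc A₂ p x₂ ∧ IsArc A₃ p x₃ ∧
    A₁ ∩ A₂ = {p} ∧ A₁ ∩ A₃ = {p} ∧ A₂ ∩ A₃ = {p}

/-- The fan axioms for `L` with top `v`. -/
structure IsFan (v : L) : Prop where
  hereditarily_unicoherent : ∀ A B : Set L, IsClosed A → IsPreconnected A → IsClosed B →
    IsPreconnected B → IsPreconnected (A ∩ B)
  arcwise_connected : ∀ x y : L, x ≠ y → ∃ A, IsArc A x y
  top_ramification : IsRamificationPoint v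
  top_unique : ∀ p, IsRamificationPoint p → p = v

/-- Smoothness of the fan `L` with top `v`. -/
def IsSmooth (v : L) : Prop :=
  ∀ (x : L) (xs : ℕ → L), Tendsto xs atTop (𝓝 x) →
    ∀ (A : Set L) (As : ℕ → Set L), IsArcOrPoint A v x → (∀ n, IsArcOrPoint (As n) v (xs n)) →
      Tendsto (fun n => Metric.hausdorffDist (As n) A) atTop (𝓝 0)

/-- `e` is an end point of `L`: an end point of every arc in `L` containing it. -/
def IsEndpoint (e : L) : Prop := ∀ (A : Set L) (x y : L), IsArc A x y → e ∈ A → e = x ∨ e = y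

/-- `L` is a Lelek fan with top `v`. -/
structure IsLelekFan (v : L) : Prop where
  fan : IsFan v
  smooth : IsSmooth v
  dense_endpoints : Dense {e : L | IsEndpoint e}

/-- A pairing: two sequences of end points without repetitions, with disjoint dense ranges. -/
structure IsPairing (a b : ℕ → L) : Prop where
  endpoint_left : ∀ i, IsEndpoint (a i)
  endpoint_right : ∀ i, IsEndpoint (b i)
  injective_left : Function.Injective a
  injective_right : Function.Injective b
  disjoint : ∀ i j, a i ≠ b j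
  dense_left : Dense (range a)
  dense_right : Dense (range b)

/-- The decomposition of `L` into the pairs `{a i, b i}` and singletons. -/
def decomposition (a b : ℕ → L) (h : IsPairing a b) : Setoid L where
  r x y := x = y ∨ ∃ i, (x = a i ∧ y = b i) ∨ (x = b i ∧ y = a i)
  iseqv :=
    { refl := fun x => Or.inl rfl
      symm := by
        rintro x y (rfl | ⟨i, ⟨h1, h2⟩ | ⟨h1, h2⟩⟩)
        · exact Or.inl rfl
        · exact Or.inr ⟨i, Or.inr ⟨h2, h1⟩⟩
        · exact Or.inr ⟨i, Or.inl ⟨h2, h1⟩⟩
      trans := by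
        rintro x y z (rfl | ⟨i, ⟨h1, h2⟩ | ⟨h1, h2⟩⟩) (rfl | ⟨j, ⟨h3, h4⟩ | ⟨h3, h4⟩⟩)
        · exact Or.inl rfl
        · exact Or.inr ⟨j, Or.inl ⟨h3, h4⟩⟩
        · exact Or.inr ⟨j, Or.inr ⟨h3, h4⟩⟩
        · exact Or.inr ⟨i, Or.inl ⟨h1, h2⟩⟩
        · exact absurd (h3.symm.trans h2) (h.disjoint j i)
        · have : i = j := h.injective_right (h2.symm.trans h3)
          subst this
          exact Or.inl (h1.trans h4.symm)
        · exact Or.inr ⟨i, Or.inr ⟨h1, h2⟩⟩
        · have : i = j := h.injective_left (h2.symm.trans h3)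
          subst this
          exact Or.inl (h1.trans h4.symm)
        · exact absurd (h2.symm.trans h3) (h.disjoint i j) }

/-- Upper semicontinuity of the decomposition into the classes of `s`: every open set containing
a class `D` contains all the classes that meet some open `V ⊇ D`. -/
def IsUpperSemicontinuous (s : Setoid L) : Prop :=
  ∀ (x : L) (U : Set L), IsOpen U → (∀ y, s x y → y ∈ U) →
    ∃ V, IsOpen V ∧ (∀ y, s x y → y ∈ V) ∧ ∀ y ∈ V, ∀ z, s y z → z ∈ U

/-! ### Segments -/

/-- `[v, x]`, as the smallest closed connected set containing `v` and `x`. -/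
def seg (v x : L) : Set L := ⋂₀ {K | IsClosed K ∧ IsPreconnected K ∧ v ∈ K ∧ x ∈ K}

theorem seg_min {v x : L} {K : Set L} (h1 : IsClosed K) (h2 : IsPreconnected K) (hv : v ∈ K)
    (hx : x ∈ K) : seg v x ⊆ K := sInter_subset_of_mem ⟨h1, h2, hv, hx⟩

theorem left_mem_seg (v x : L) : v ∈ seg v x := by
  intro K hK; exact hK.2.2.1

theorem right_mem_seg (v x : L) : x ∈ seg v x := by
  intro K hK; exact hK.2.2.2

theorem isClosed_seg (v x : L) : IsClosed (seg v x) := isClosed_sInter (fun _ hK => hK.1)

theorem seg_self (v : L) : seg v v = {v} := by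
  apply Subset.antisymm
  · exact seg_min isClosed_singleton isPreconnected_singleton rfl rfl
  · rintro _ rfl; exact left_mem_seg _ _

theorem arc_isClosed {A : Set L} {x y : L} (h : IsArc A x y) : IsClosed A := by
  obtain ⟨γ, hγ, _, _, _, rfl⟩ := h
  exact (isCompact_range hγ).isClosed

section Param
variable {γ : unitInterval → L} (hγ : Continuous γ) (hinj : Function.Injective γ)
include hγ hinj

theorem param_closedEmbedding : IsClosedEmbedding γ := hγ.isClosedEmbedding hinj

variable (HU : ∀ A B : Set L, IsClosed A → IsPreconnected A → IsClosed B →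
    IsPreconnected B → IsPreconnected (A ∩ B))
include HU

theorem preimage_preconnected {K : Set L} (h1 : IsClosed K) (h2 : IsPreconnected K) :
    IsPreconnected (γ ⁻¹' K) := by
  have he := param_closedEmbedding hγ hinj
  rw [← he.toIsEmbedding.toIsInducing.isPreconnected_image, image_preimage_eq_inter_range]
  exact HU _ _ h1 h2 he.isClosed_range (isPreconnected_range hγ)

theorem param_seg (t : unitInterval) : seg (γ 0) (γ t) = γ '' Iic t := by
  apply Subset.antisymm
  · apply seg_min
    · exact (param_closedEmbedding hγ hinj).isClosedMap _ isClosed_Iic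
    · exact isPreconnected_Iic.image _ hγ.continuousOn
    · exact ⟨0, unitInterval.nonneg' , rfl⟩
    · exact ⟨t, mem_Iic.mpr le_rfl, rfl⟩
  · rintro _ ⟨s, hs, rfl⟩
    intro K hK
    have h := preimage_preconnected hγ hinj HU hK.1 hK.2.1
    have h0 : (0 : unitInterval) ∈ γ ⁻¹' K := hK.2.2.1
    have ht : t ∈ γ ⁻¹' K := hK.2.2.2
    exact h.Icc_subset h0 ht ⟨unitInterval.nonneg', hs⟩

end Param

theorem seg_eq_of_arc (HU : ∀ A B : Set L, IsClosed A → IsPreconnected A → IsClosed B →
    IsPreconnected B → IsPreconnected (A ∩ B)) {A : Set L} {v x : L} (h : IsArc A v x) :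
    seg v x = A := by
  obtain ⟨γ, hγ, hinj, rfl, rfl, rfl⟩ := h
  rw [param_seg hγ hinj HU 1]
  have : (Iic (1 : unitInterval)) = univ := by
    ext t; simp [unitInterval.le_one']
  rw [this, image_univ]

/-- Sub-arcs. -/
theorem subarc {γ : unitInterval → L} (hγ : Continuous γ) (hinj : Function.Injective γ)
    {s t : unitInterval} (hst : s ≠ t) : IsArc (γ '' uIcc s t) (γ s) (γ t) := by
  have hmem : ∀ r : unitInterval, (1 - (r : ℝ)) * s + r * t ∈ Icc (0 : ℝ) 1 := by
    intro r
    have h1 := r.2.1; have h2 := r.2.2; have h3 := s.2.1; have h4 := s.2.2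
    have h5 := t.2.1; have h6 := t.2.2
    constructor
    · nlinarith
    · nlinarith
  let σ : unitInterval → unitInterval := fun r => ⟨(1 - (r : ℝ)) * s + r * t, hmem r⟩
  have hσ : Continuous σ := by
    apply Continuous.subtype_mk
    fun_prop
  have hσinj : Function.Injective σ := by
    intro r r' h
    have h1 : (1 - (r : ℝ)) * s + r * t = (1 - (r' : ℝ)) * s + r' * t := congrArg Subtype.val h
    have h2 : ((r : ℝ) - r') * ((t : ℝ) - s) = 0 := by linarith
    rcases mul_eq_zero.mp h2 with h3 | h3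
    · exact Subtype.ext (by linarith)
    · exact absurd (Subtype.ext (by linarith : (s : ℝ) = t)) hst
  have h0 : σ 0 = s := by apply Subtype.ext; simp [σ]
  have h1 : σ 1 = t := by apply Subtype.ext; simp [σ]
  have hrange : range σ = uIcc s t := by
    apply Subset.antisymm
    · rintro _ ⟨r, rfl⟩
      have hr1 := r.2.1; have hr2 := r.2.2
      rcases le_total s t with h | h
      · rw [uIcc_of_le h]
        have h' : (s : ℝ) ≤ t := h
        constructor
        · show (s : ℝ) ≤ (1 - (r : ℝ)) * s + r * t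
          nlinarith
        · show (1 - (r : ℝ)) * s + r * t ≤ (t : ℝ)
          nlinarith
      · rw [uIcc_of_ge h]
        have h' : (t : ℝ) ≤ s := h
        constructor
        · show (t : ℝ) ≤ (1 - (r : ℝ)) * s + r * t
          nlinarith
        · show (1 - (r : ℝ)) * s + r * t ≤ (s : ℝ)
          nlinarith
    · have hp : IsPreconnected (range σ) := isPreconnected_range hσ
      exact hp.ordConnected.uIcc_subset ⟨0, h0⟩ ⟨1, h1⟩
  refine ⟨γ ∘ σ, hγ.comp hσ, hinj.comp hσinj, by simp [h0], by simp [h1], ?_⟩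
  rw [range_comp, hrange]


/-! ### Consequences of the fan axioms -/

section Fan
variable {v : L}

theorem exists_param (hF : IsFan v) {x : L} (hx : x ≠ v) :
    ∃ γ : unitInterval → L, Continuous γ ∧ Function.Injective γ ∧ γ 0 = v ∧ γ 1 = x ∧
      (∀ t, seg v (γ t) = γ '' Iic t) ∧ seg v x = range γ := by
  obtain ⟨A, γ, hγ, hinj, h0, h1, hA⟩ := hF.arcwise_connected v x hx.symm
  refine ⟨γ, hγ, hinj, h0, h1, fun t => ?_, ?_⟩
  · have := param_seg hγ hinj hF.hereditarily_unicoherent t
    rwa [h0] at this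
  · have := seg_eq_of_arc hF.hereditarily_unicoherent (A := A) (v := v) (x := x)
      ⟨γ, hγ, hinj, h0, h1, hA⟩
    rw [this, hA]

theorem isPreconnected_seg (hF : IsFan v) (x : L) : IsPreconnected (seg v x) := by
  by_cases hx : x = v
  · rw [hx, seg_self]; exact isPreconnected_singleton
  · obtain ⟨γ, hγ, _, _, _, _, h⟩ := exists_param hF hx
    rw [h]; exact isPreconnected_range hγ

theorem seg_subset (hF : IsFan v) {u x : L} (h : u ∈ seg v x) : seg v u ⊆ seg v x :=
  seg_min (isClosed_seg v x) (isPreconnected_seg hF x) (left_mem_seg v x) h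

theorem seg_antisymm (hF : IsFan v) {u x : L} (h : u ∈ seg v x) (h' : x ∈ seg v u) : u = x := by
  by_cases hx : x = v
  · subst hx
    rw [seg_self] at h
    exact h
  · obtain ⟨γ, hγ, hinj, h0, h1, hseg, hr⟩ := exists_param hF hx
    rw [hr] at h
    obtain ⟨t, rfl⟩ := h
    rw [hseg t] at h'
    obtain ⟨s, hs, hs'⟩ := h'
    rw [← h1] at hs'
    have := hinj hs'
    subst this
    have : t = 1 := le_antisymm unitInterval.le_one' hs
    rw [this, h1]

/-- Two points of one segment are comparable. -/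
theorem comparable_of_mem (hF : IsFan v) {u w x : L} (hu : u ∈ seg v x) (hw : w ∈ seg v x) :
    u ∈ seg v w ∨ w ∈ seg v u := by
  by_cases hx : x = v
  · subst hx
    rw [seg_self] at hu hw
    have h1 : u = x := hu
    rw [h1]; left; exact left_mem_seg _ _
  · obtain ⟨γ, hγ, hinj, h0, h1, hseg, hr⟩ := exists_param hF hx
    rw [hr] at hu hw
    obtain ⟨s, rfl⟩ := hu
    obtain ⟨t, rfl⟩ := hw
    rcases le_total s t with h | h
    · left; rw [hseg t]; exact ⟨s, h, rfl⟩
    · right; rw [hseg s]; exact ⟨t, h, rfl⟩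

/-- Trichotomy. -/
theorem seg_trichotomy (hF : IsFan v) (x y : L) :
    x ∈ seg v y ∨ y ∈ seg v x ∨ seg v x ∩ seg v y = {v} := by
  by_cases hx : x = v
  · left; rw [hx]; exact left_mem_seg _ _
  by_cases hy : y = v
  · right; left; rw [hy]; exact left_mem_seg _ _
  obtain ⟨γ, hγ, hinj, h0, h1, hseg, hr⟩ := exists_param hF hx
  obtain ⟨η, hη, hinj', h0', h1', hseg', hr'⟩ := exists_param hF hy
  by_cases hxy : x ∈ seg v y
  · left; exact hxy
  by_cases hyx : y ∈ seg v x
  · right; left; exact hyx
  right; right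
  set S : Set unitInterval := γ ⁻¹' (seg v y) with hS
  have hSpre : IsPreconnected S := preimage_preconnected hγ hinj hF.hereditarily_unicoherent
    (isClosed_seg v y) (isPreconnected_seg hF y)
  have hSclosed : IsClosed S := (isClosed_seg v y).preimage hγ
  have h0S : (0 : unitInterval) ∈ S := by
    show γ 0 ∈ seg v y
    rw [h0]; exact left_mem_seg _ _
  obtain ⟨s, hsS, hsmax⟩ := hSclosed.isCompact.exists_isGreatest ⟨0, h0S⟩
  have hSeq : S = Iic s := by
    apply Subset.antisymm
    · intro t ht; exact hsmax ht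
    · intro t ht
      exact hSpre.Icc_subset h0S hsS ⟨unitInterval.nonneg', ht⟩
  have hzy : γ s ∈ seg v y := hsS
  have hzy' := hzy
  rw [hr'] at hzy'
  obtain ⟨s', hs'⟩ := hzy'
  -- intersection is seg (γ s)
  have hinter : seg v x ∩ seg v y = seg v (γ s) := by
    rw [hseg s, ← hSeq, hr]
    ext u
    constructor
    · rintro ⟨⟨t, rfl⟩, hu⟩
      exact ⟨t, hu, rfl⟩
    · rintro ⟨t, ht, rfl⟩
      exact ⟨⟨t, rfl⟩, ht⟩
  rw [hinter]
  by_cases hz : γ s = v
  · rw [hz, seg_self]
  exfalso
  apply hz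
  apply hF.top_unique
  have hs0 : s ≠ 0 := by
    intro h; rw [h, h0] at hz; exact hz rfl
  have hs1 : s ≠ 1 := by
    intro h
    apply hxy
    rw [← h1, ← h]; exact hzy
  have hs0' : s' ≠ 0 := by
    intro h; rw [h, h0'] at hs'; exact hz hs'.symm
  have hs1' : s' ≠ 1 := by
    intro h
    apply hyx
    rw [h, h1'] at hs'
    rw [hs', hr]; exact ⟨s, rfl⟩
  have hsegz : γ '' Iic s = η '' Iic s' := by
    rw [← hseg s, ← hseg' s', hs']
  have A1 : IsArc (γ '' uIcc s 0) (γ s) (γ 0) := subarc hγ hinj hs0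
  have A2 : IsArc (γ '' uIcc s 1) (γ s) (γ 1) := subarc hγ hinj hs1
  have A3 : IsArc (η '' uIcc s' 1) (η s') (η 1) := subarc hη hinj' hs1'
  rw [hs'] at A3
  rw [uIcc_of_ge unitInterval.nonneg'] at A1
  rw [uIcc_of_le unitInterval.le_one'] at A2 A3
  refine ⟨_, _, _, _, _, _, A1, A2, A3, ?_, ?_, ?_⟩
  · ext u
    constructor
    · rintro ⟨⟨t, ht, rfl⟩, ⟨t', ht', h⟩⟩
      have := hinj h
      subst this
      have : t' = s := le_antisymm ht.2 ht'.1
      rw [this]; rfl
    · rintro rfl
      exact ⟨⟨s, ⟨unitInterval.nonneg', le_rfl⟩, rfl⟩, ⟨s, ⟨le_rfl, unitInterval.le_one'⟩, rfl⟩⟩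
  · ext u
    constructor
    · rintro ⟨⟨t, ht, rfl⟩, ⟨t', ht', h⟩⟩
      have h1 : γ t ∈ η '' Iic s' := by
        rw [← hsegz]; exact ⟨t, ht.2, rfl⟩
      obtain ⟨t'', ht'', h2⟩ := h1
      rw [← h2] at h
      have := hinj' h
      subst this
      have : t' = s' := le_antisymm ht'' ht'.1
      rw [← h2, this, hs']; rfl
    · rintro rfl
      exact ⟨⟨s, ⟨unitInterval.nonneg', le_rfl⟩, rfl⟩, ⟨s', ⟨le_rfl, unitInterval.le_one'⟩, hs'⟩⟩
  · ext u
    constructor
    · rintro ⟨⟨t, ht, rfl⟩, ⟨t', ht', h⟩⟩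
      have h1 : γ t ∈ seg v y := by
        rw [hr', ← h]; exact ⟨t', rfl⟩
      have h2 : t ∈ S := h1
      rw [hSeq] at h2
      have : t = s := le_antisymm h2 ht.1
      rw [this]; rfl
    · rintro rfl
      exact ⟨⟨s, ⟨le_rfl, unitInterval.le_one'⟩, rfl⟩, ⟨s', ⟨le_rfl, unitInterval.le_one'⟩, hs'⟩⟩

/-- `x` and `y` lie on a common ray. -/
def Comp (v x y : L) : Prop := x ∈ seg v y ∨ y ∈ seg v x

theorem Comp.symm {x y : L} (h : Comp v x y) : Comp v y x := Or.symm h

theorem comp_refl (x : L) : Comp v x x := Or.inl (right_mem_seg v x)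

theorem Comp.trans (hF : IsFan v) {x y z : L} (hy : y ≠ v) (h1 : Comp v x y) (h2 : Comp v y z) :
    Comp v x z := by
  rcases h1 with h1 | h1
  · rcases h2 with h2 | h2
    · left; exact seg_subset hF h2 h1
    · exact comparable_of_mem hF h1 h2
  · rcases h2 with h2 | h2
    · rcases seg_trichotomy hF x z with h | h | h
      · left; exact h
      · right; exact h
      · exfalso
        apply hy
        have : y ∈ seg v x ∩ seg v z := ⟨h1, h2⟩
        rw [h] at this
        exact this
    · right; exact seg_subset hF h1 h2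

/-- Connected closed sets avoiding the top lie in one ray. -/
theorem comp_of_connected (hF : IsFan v) {K : Set L} (h1 : IsClosed K) (h2 : IsPreconnected K)
    (hv : v ∉ K) {x y : L} (hx : x ∈ K) (hy : y ∈ K) : Comp v x y := by
  rcases seg_trichotomy hF x y with h | h | h
  · left; exact h
  · right; exact h
  exfalso
  have hM : IsPreconnected (seg v x ∪ seg v y) :=
    (isPreconnected_seg hF x).union v (left_mem_seg _ _) (left_mem_seg _ _)
      (isPreconnected_seg hF y)
  have hMc : IsClosed (seg v x ∪ seg v y) := (isClosed_seg v x).union (isClosed_seg v y)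
  have hKM := hF.hereditarily_unicoherent K _ h1 h2 hMc hM
  rw [isPreconnected_closed_iff] at hKM
  obtain ⟨z, hz1, hz2⟩ := hKM (seg v x) (seg v y) (isClosed_seg v x) (isClosed_seg v y)
    inter_subset_right ⟨x, ⟨hx, Or.inl (right_mem_seg _ _)⟩, right_mem_seg _ _⟩
    ⟨y, ⟨hy, Or.inr (right_mem_seg _ _)⟩, right_mem_seg _ _⟩
  rw [h] at hz2
  have : z = v := hz2
  rw [this] at hz1
  exact hv hz1.1

/-- The order relation is closed. -/
theorem isClosed_order [CompactSpace L] (hF : IsFan v) (hS : IsSmooth v) :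
    IsClosed {p : L × L | p.1 ∈ seg v p.2} := by
  rw [← isSeqClosed_iff_isClosed]
  intro p q hp hpq
  obtain ⟨x, y⟩ := q
  have hx : Tendsto (fun n => (p n).1) atTop (𝓝 x) :=
    (continuous_fst.tendsto _).comp hpq
  have hy : Tendsto (fun n => (p n).2) atTop (𝓝 y) :=
    (continuous_snd.tendsto _).comp hpq
  have harc : ∀ z : L, IsArcOrPoint (seg v z) v z := by
    intro z
    by_cases hz : z = v
    · left; exact ⟨hz.symm, by rw [hz, seg_self]⟩
    · right
      obtain ⟨γ, hγ, hinj, h0, h1, _, hr⟩ := exists_param hF hz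
      exact ⟨γ, hγ, hinj, h0, h1, hr.symm⟩
  have hlim := hS y (fun n => (p n).2) hy (seg v y) (fun n => seg v (p n).2) (harc y)
    (fun n => harc _)
  have h1 : ∀ n, Metric.infDist (p n).1 (seg v y) ≤
      Metric.hausdorffDist (seg v (p n).2) (seg v y) := by
    intro n
    have hpn : (p n).1 ∈ seg v (p n).2 := hp n
    apply Metric.infDist_le_hausdorffDist_of_mem hpn
    exact Metric.hausdorffEDist_ne_top_of_nonempty_of_bounded ⟨v, left_mem_seg _ _⟩
      ⟨v, left_mem_seg _ _⟩ (isClosed_seg v _).isCompact.isBounded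
      (isClosed_seg v _).isCompact.isBounded
  have h2 : Tendsto (fun n => Metric.infDist (p n).1 (seg v y)) atTop (𝓝 0) :=
    squeeze_zero (fun n => Metric.infDist_nonneg) h1 hlim
  have h3 : Tendsto (fun n => Metric.infDist (p n).1 (seg v y)) atTop
      (𝓝 (Metric.infDist x (seg v y))) :=
    ((Metric.continuous_infDist_pt _).tendsto x).comp hx
  have h4 := tendsto_nhds_unique h3 h2
  show x ∈ seg v y
  exact ((isClosed_seg v y).mem_iff_infDist_zero ⟨v, left_mem_seg _ _⟩).mpr h4

/-! ### End points -/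

/-- The maximal points of the order. -/
def Ends (v : L) : Set L := {x | ∀ y, x ∈ seg v y → y = x}

theorem isEndpoint_of_mem_Ends (hF : IsFan v) {x : L} (hx : x ∈ Ends v) : IsEndpoint x := by
  rintro A p r ⟨γ, hγ, hinj, h0, h1, rfl⟩ ⟨t, ht⟩
  by_contra hcon
  push Not at hcon
  have hp : x ∉ seg v p := fun h => hcon.1 (hx p h).symm
  have hr : x ∉ seg v r := fun h => hcon.2 (hx r h).symm
  have hM : IsPreconnected (seg v p ∪ seg v r) :=
    (isPreconnected_seg hF p).union v (left_mem_seg _ _) (left_mem_seg _ _)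
      (isPreconnected_seg hF r)
  have hMc : IsClosed (seg v p ∪ seg v r) := (isClosed_seg v p).union (isClosed_seg v r)
  have hpre := preimage_preconnected hγ hinj hF.hereditarily_unicoherent hMc hM
  have ha : (0 : unitInterval) ∈ γ ⁻¹' (seg v p ∪ seg v r) := by
    show γ 0 ∈ seg v p ∪ seg v r
    rw [h0]; left; exact right_mem_seg _ _
  have hb : (1 : unitInterval) ∈ γ ⁻¹' (seg v p ∪ seg v r) := by
    show γ 1 ∈ seg v p ∪ seg v r
    rw [h1]; right; exact right_mem_seg _ _
  have := hpre.Icc_subset ha hb (⟨unitInterval.nonneg', unitInterval.le_one'⟩ : t ∈ Icc 0 1)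
  have h2 : γ t ∈ seg v p ∪ seg v r := this
  rw [ht] at h2
  rcases h2 with h2 | h2
  · exact hp h2
  · exact hr h2

theorem mem_Ends_of_isEndpoint (hF : IsFan v) {x : L} (hx : IsEndpoint x) (hxv : x ≠ v) :
    x ∈ Ends v := by
  intro y hy
  by_contra hne
  have hyv : y ≠ v := by
    intro h
    rw [h, seg_self] at hy
    exact hxv hy
  obtain ⟨γ, hγ, hinj, h0, h1, _, hr⟩ := exists_param hF hyv
  rw [hr] at hy
  rcases hx (range γ) v y ⟨γ, hγ, hinj, h0, h1, rfl⟩ hy with h | h
  · exact hxv h
  · exact hne h.symm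

theorem arc_ne {A : Set L} {x y : L} (h : IsArc A x y) : x ≠ y := by
  obtain ⟨γ, _, hinj, h0, h1, _⟩ := h
  intro h
  rw [← h0, ← h1] at h
  exact zero_ne_one (hinj h)

theorem exists_ne_top (hF : IsFan v) : ∃ x : L, x ≠ v := by
  obtain ⟨x₁, _, _, _, _, _, h, _⟩ := hF.top_ramification
  exact ⟨x₁, (arc_ne h).symm⟩

theorem top_notMem_Ends (hF : IsFan v) : v ∉ Ends v := by
  obtain ⟨x, hx⟩ := exists_ne_top hF
  intro h
  exact hx (h x (left_mem_seg v x))

theorem Comp.eq_of_Ends {x y : L} (h : Comp v x y) (hx : x ∈ Ends v) (hy : y ∈ Ends v) :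
    x = y := by
  rcases h with h | h
  · exact (hx y h).symm
  · exact hy x h

theorem dense_Ends [ConnectedSpace L] (hL : IsLelekFan v) : Dense (Ends v) := by
  obtain ⟨x, hx⟩ := exists_ne_top hL.fan
  have : Nontrivial L := ⟨⟨x, v, hx⟩⟩
  have h := hL.dense_endpoints.sdiff_singleton v
  apply h.mono
  rintro y ⟨hy, hyv⟩
  exact mem_Ends_of_isEndpoint hL.fan hy hyv

theorem isGδ_Ends [CompactSpace L] (hL : IsLelekFan v) : IsGδ (Ends v) := by
  have hcl := isClosed_order hL.fan hL.smooth
  have h : Ends v = ⋂ n : ℕ, {x : L | ∀ y, x ∈ seg v y → dist x y < 1 / ((n : ℝ) + 1)} := by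
    ext x
    simp only [mem_iInter]
    constructor
    · intro hx n y hy
      rw [hx y hy, dist_self]
      positivity
    · intro hx y hy
      have : dist x y ≤ 0 := by
        apply le_of_forall_pos_le_add
        intro ε hε
        obtain ⟨n, hn⟩ := exists_nat_one_div_lt hε
        have := hx n y hy
        linarith
      exact (dist_le_zero.mp this).symm
  rw [h]
  apply IsGδ.iInter_of_isOpen
  intro n
  rw [← isClosed_compl_iff]
  have : {x : L | ∀ y, x ∈ seg v y → dist x y < 1 / ((n : ℝ) + 1)}ᶜ =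
      Prod.fst '' ({p : L × L | p.1 ∈ seg v p.2} ∩ {p | 1 / ((n : ℝ) + 1) ≤ dist p.1 p.2}) := by
    ext x
    simp only [mem_compl_iff, mem_ofPred_eq, not_forall, not_lt, mem_image, mem_inter_iff,
      Prod.exists, exists_and_right, exists_eq_right]
    constructor
    · rintro ⟨y, h1, h2⟩
      exact ⟨y, h1, h2⟩
    · rintro ⟨y, h1, h2⟩
      exact ⟨y, h1, h2⟩
  rw [this]
  apply IsCompact.isClosed
  apply IsCompact.image _ continuous_fst
  apply IsClosed.isCompact
  exact hcl.inter (isClosed_le continuous_const (by fun_prop))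

/-! ### Chains -/

/-- One step of a chain: two points at distance less than `ε`, both at distance at least `δ` from
the top. -/
def Step (v : L) (δ ε : ℝ) (x y : L) : Prop := δ ≤ dist x v ∧ δ ≤ dist y v ∧ dist x y < ε

/-- The closed set of comparable pairs. -/
def CompSet (v : L) : Set (L × L) := {p | Comp v p.1 p.2}

theorem isClosed_CompSet [CompactSpace L] (hF : IsFan v) (hS : IsSmooth v) :
    IsClosed (CompSet v) := by
  have h := isClosed_order hF hS
  have h2 : IsClosed {p : L × L | p.2 ∈ seg v p.1} := h.preimage continuous_swap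
  exact h.union h2

/-- A measure of incomparability. -/
noncomputable def rho (v x y : L) : ℝ := Metric.infDist (x, y) (CompSet v)

theorem rho_self (x : L) : rho v x x = 0 := by
  apply Metric.infDist_zero_of_mem
  exact comp_refl x

theorem rho_eq_zero [CompactSpace L] (hF : IsFan v) (hS : IsSmooth v) {x y : L} :
    rho v x y = 0 ↔ Comp v x y := by
  have := ((isClosed_CompSet hF hS).mem_iff_infDist_zero ⟨(v, v), comp_refl v⟩ (x := (x, y)))
  exact this.symm

theorem chain_bound [CompactSpace L] (hF : IsFan v) (hS : IsSmooth v) {δ η : ℝ} (hδ : 0 < δ)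
    (hη : 0 < η) : ∃ ε > 0, ∀ x y, Relation.ReflTransGen (Step v δ ε) x y → rho v x y < η := by
  by_contra hcon
  push Not at hcon
  have hk : ∀ k : ℕ, ∃ x y, Relation.ReflTransGen (Step v δ (1 / ((k : ℝ) + 1))) x y ∧
      η ≤ rho v x y := fun k => hcon _ (by positivity)
  choose x y hch hrho using hk
  obtain ⟨p, φ, hφ, hlim⟩ := CompactSpace.tendsto_subseq (fun k => (x k, y k))
  obtain ⟨a, b⟩ := p
  -- all points are far from the top
  have hne : ∀ k, x k ≠ y k := by
    intro k h
    have := hrho k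
    rw [h, rho_self] at this
    linarith
  have hxk : ∀ k, δ ≤ dist (x k) v := by
    intro k
    rcases Relation.ReflTransGen.cases_head (hch k) with h | ⟨c, h, _⟩
    · exact absurd h (hne k)
    · exact h.1
  have hyk : ∀ k, δ ≤ dist (y k) v := by
    intro k
    rcases Relation.ReflTransGen.cases_tail (hch k) with h | ⟨c, _, h⟩
    · exact absurd h.symm (hne k)
    · exact h.2.1
  have hxa : Tendsto (fun k => x (φ k)) atTop (𝓝 a) := (continuous_fst.tendsto _).comp hlim
  have hyb : Tendsto (fun k => y (φ k)) atTop (𝓝 b) := (continuous_snd.tendsto _).comp hlim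
  have ha : δ ≤ dist a v := ge_of_tendsto' (hxa.dist tendsto_const_nhds) (fun k => hxk _)
  have hb : δ ≤ dist b v := ge_of_tendsto' (hyb.dist tendsto_const_nhds) (fun k => hyk _)
  have hr : η ≤ rho v a b := by
    have h1 : Tendsto (fun k => rho v (x (φ k)) (y (φ k))) atTop (𝓝 (rho v a b)) :=
      ((Metric.continuous_infDist_pt (CompSet v)).tendsto _).comp hlim
    exact ge_of_tendsto' h1 (fun k => hrho _)
  have hnc : ¬ Comp v a b := by
    intro h
    have := (rho_eq_zero hF hS).mpr h
    linarith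
  -- the compact set of far points
  let K : Set L := {z | δ ≤ dist z v}
  have hKc : IsClosed K := isClosed_le continuous_const (continuous_id.dist continuous_const)
  have : CompactSpace K := isCompact_iff_compactSpace.mp hKc.isCompact
  let a' : K := ⟨a, ha⟩
  let b' : K := ⟨b, hb⟩
  have hnot : b' ∉ connectedComponent a' := by
    intro h
    apply hnc
    have h1 : IsPreconnected ((↑) '' (connectedComponent a') : Set L) :=
      isPreconnected_connectedComponent.image _ continuous_subtype_val.continuousOn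
    have h2 : IsClosed ((↑) '' (connectedComponent a') : Set L) :=
      (hKc.isClosedEmbedding_subtypeVal.isClosedMap) _ isClosed_connectedComponent
    apply comp_of_connected hF h2 h1 _ ⟨a', mem_connectedComponent, rfl⟩ ⟨b', h, rfl⟩
    rintro ⟨z, _, hz⟩
    have := z.2
    rw [hz] at this
    have h3 : δ ≤ dist v v := this
    rw [dist_self] at h3
    linarith
  rw [connectedComponent_eq_iInter_isClopen] at hnot
  simp only [mem_iInter, Subtype.forall, not_forall] at hnot
  obtain ⟨Z, ⟨hZ, haZ⟩, hbZ⟩ := hnot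
  -- positive distance between Z and its complement
  obtain ⟨r, hr0, hrZ⟩ : ∃ r > 0, ∀ z ∈ Z, ∀ z' : K, z' ∉ Z → r ≤ dist z z' := by
    have hd : Disjoint Z Zᶜ := disjoint_compl_right
    obtain ⟨r, hr0, hr1⟩ := hd.exists_thickenings hZ.isClosed.isCompact hZ.compl.isClosed
    refine ⟨r, hr0, fun z hz z' hz' => ?_⟩
    by_contra hlt
    push Not at hlt
    have h1 : z' ∈ Metric.thickening r Z := by
      rw [Metric.mem_thickening_iff]
      exact ⟨z, hz, by rwa [dist_comm]⟩
    have h2 : z' ∈ Metric.thickening r Zᶜ := Metric.self_subset_thickening hr0 _ hz'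
    exact (disjoint_left.mp hr1) h1 h2
  -- eventually x in Z, y not in Z
  have hx' : Tendsto (fun k => (⟨x (φ k), hxk _⟩ : K)) atTop (𝓝 a') :=
    tendsto_subtype_rng.mpr hxa
  have hy' : Tendsto (fun k => (⟨y (φ k), hyk _⟩ : K)) atTop (𝓝 b') :=
    tendsto_subtype_rng.mpr hyb
  have e1 : ∀ᶠ k in atTop, (⟨x (φ k), hxk _⟩ : K) ∈ Z := hx'.eventually (hZ.isOpen.mem_nhds haZ)
  have e2 : ∀ᶠ k in atTop, (⟨y (φ k), hyk _⟩ : K) ∉ Z :=
    hy'.eventually (hZ.compl.isOpen.mem_nhds hbZ)
  have e3 : ∀ᶠ k : ℕ in atTop, 1 / (((φ k : ℕ) : ℝ) + 1) < r := by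
    have h1 : Tendsto (fun n : ℕ => 1 / ((n : ℝ) + 1)) atTop (𝓝 0) :=
      tendsto_one_div_add_atTop_nhds_zero_nat
    exact (h1.comp hφ.tendsto_atTop).eventually (gt_mem_nhds hr0)
  obtain ⟨k, hk1, hk2, hk3⟩ := (e1.and (e2.and e3)).exists
  have key : ∀ z, Relation.ReflTransGen (Step v δ (1 / (((φ k : ℕ) : ℝ) + 1))) (x (φ k)) z →
      ∃ h : δ ≤ dist z v, (⟨z, h⟩ : K) ∈ Z := by
    intro z hz
    induction hz with
    | refl => exact ⟨_, hk1⟩
    | tail _ hst ih =>
      obtain ⟨h, hZ1⟩ := ih
      refine ⟨hst.2.1, ?_⟩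
      by_contra hno
      have h1 := hrZ _ hZ1 _ hno
      have h2 : dist _ _ < _ := hst.2.2
      have h3 := lt_of_lt_of_le (h2.trans hk3) h1
      exact lt_irrefl _ h3
  obtain ⟨h, hyZ⟩ := key _ (hch (φ k))
  exact hk2 hyZ

/-! ### Selection of pairs -/

theorem exists_selection [CompactSpace L] [ConnectedSpace L] (hL : IsLelekFan v) {K : Set L}
    (hKc : IsClosed K) (hKd : Dense Kᶜ) (tol : List (L × L) → ℝ) (htol : ∀ l, 0 < tol l)
    (G : ℕ → Set L) (hGo : ∀ n, IsOpen (G n)) (hGne : ∀ n, (G n).Nonempty) :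
    ∃ (a b : ℕ → L), (∀ n, a n ∈ G n ∧ b n ∈ G n ∧ a n ∈ Ends v ∧ b n ∈ Ends v ∧
        a n ∉ K ∧ b n ∉ K) ∧
      Function.Injective a ∧ Function.Injective b ∧ (∀ i j, a i ≠ b j) ∧
      ∀ n, dist (a n) (b n) < tol (((List.range n).map (fun i => (a i, b i))).reverse) := by
  classical
  obtain ⟨x0, hx0⟩ := exists_ne_top hL.fan
  have : Nontrivial L := ⟨⟨x0, v, hx0⟩⟩
  have hE := dense_Ends hL
  -- the picking step
  have hpick : ∀ (n : ℕ) (l : List (L × L)), ∃ p : L × L, p.1 ∈ G n ∧ p.2 ∈ G n ∧
      p.1 ∈ Ends v ∧ p.2 ∈ Ends v ∧ p.1 ∉ K ∧ p.2 ∉ K ∧ p.1 ≠ p.2 ∧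
      (∀ q ∈ l, p.1 ≠ q.1 ∧ p.1 ≠ q.2 ∧ p.2 ≠ q.1 ∧ p.2 ≠ q.2) ∧ dist p.1 p.2 < tol l := by
    intro n l
    let S : Set L := {z | ∃ q ∈ l, z = q.1 ∨ z = q.2}
    have hSf : S.Finite := by
      have : S ⊆ ((l.map Prod.fst ++ l.map Prod.snd).toFinset : Set L) := by
        rintro z ⟨q, hq, h | h⟩
        · simp only [List.coe_toFinset, List.mem_append, List.mem_map, mem_ofPred_eq]
          left; exact ⟨q, hq, h.symm⟩
        · simp only [List.coe_toFinset, List.mem_append, List.mem_map, mem_ofPred_eq]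
          right; exact ⟨q, hq, h.symm⟩
      exact (Finset.finite_toSet _).subset this
    have hSd : Dense Sᶜ := by
      have := (dense_univ (X := L)).sdiff_finite hSf
      rwa [← compl_eq_univ_sdiff] at this
    have hopen1 : IsOpen (G n ∩ Kᶜ ∩ Sᶜ) :=
      ((hGo n).inter hKc.isOpen_compl).inter hSf.isClosed.isOpen_compl
    have hne1 : (G n ∩ Kᶜ ∩ Sᶜ).Nonempty := by
      have h1 : (G n ∩ Kᶜ).Nonempty := hKd.inter_open_nonempty _ (hGo n) (hGne n)
      exact hSd.inter_open_nonempty _ ((hGo n).inter hKc.isOpen_compl) h1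
    obtain ⟨x, hxU, hxE⟩ := hE.inter_open_nonempty _ hopen1 hne1
    have hopen2 : IsOpen ((G n ∩ Kᶜ ∩ Sᶜ) ∩ Metric.ball x (tol l)) :=
      hopen1.inter Metric.isOpen_ball
    have hne2 : ((G n ∩ Kᶜ ∩ Sᶜ) ∩ Metric.ball x (tol l)).Nonempty :=
      ⟨x, hxU, Metric.mem_ball_self (htol l)⟩
    obtain ⟨y, hyU, hyE, hyx⟩ := (hE.sdiff_singleton x).inter_open_nonempty _ hopen2 hne2
    refine ⟨(x, y), hxU.1.1, hyU.1.1.1, hxE, hyE, hxU.1.2, hyU.1.1.2, fun h => hyx h.symm,
      ?_, ?_⟩
    · intro q hq
      refine ⟨?_, ?_, ?_, ?_⟩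
      · intro h; exact hxU.2 ⟨q, hq, Or.inl h⟩
      · intro h; exact hxU.2 ⟨q, hq, Or.inr h⟩
      · intro h; exact hyU.1.2 ⟨q, hq, Or.inl h⟩
      · intro h; exact hyU.1.2 ⟨q, hq, Or.inr h⟩
    · rw [dist_comm]; exact hyU.2
  choose pick h1 h2 h3 h4 h5 h6 h7 h8 h9 using hpick
  let hist : ℕ → List (L × L) := fun n => Nat.rec [] (fun k l => pick k l :: l) n
  have hist0 : hist 0 = [] := rfl
  have histS : ∀ n, hist (n + 1) = pick n (hist n) :: hist n := fun n => rfl
  let p : ℕ → L × L := fun n => pick n (hist n)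
  have hhist : ∀ n, hist n = ((List.range n).map (fun i => ((p i).1, (p i).2))).reverse := by
    intro n
    induction n with
    | zero => rfl
    | succ n ih =>
      rw [histS, List.range_succ, List.map_append, List.reverse_append, ← ih]
      rfl
  have hmem : ∀ i n, i < n → p i ∈ hist n := by
    intro i n hin
    rw [hhist, List.mem_reverse, List.mem_map]
    exact ⟨i, List.mem_range.mpr hin, rfl⟩
  have hdist : ∀ i j, i < j → (p j).1 ≠ (p i).1 ∧ (p j).1 ≠ (p i).2 ∧ (p j).2 ≠ (p i).1 ∧
      (p j).2 ≠ (p i).2 := fun i j hij => h8 j (hist j) (p i) (hmem i j hij)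
  refine ⟨fun n => (p n).1, fun n => (p n).2, fun n => ⟨h1 _ _, h2 _ _, h3 _ _, h4 _ _, h5 _ _,
    h6 _ _⟩, ?_, ?_, ?_, ?_⟩
  · intro i j hij
    rcases lt_trichotomy i j with h | h | h
    · exact absurd hij.symm (hdist i j h).1
    · exact h
    · exact absurd hij (hdist j i h).1
  · intro i j hij
    rcases lt_trichotomy i j with h | h | h
    · exact absurd hij.symm (hdist i j h).2.2.2
    · exact h
    · exact absurd hij (hdist j i h).2.2.2
  · intro i j
    rcases lt_trichotomy i j with h | h | h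
    · exact (hdist i j h).2.2.1.symm
    · subst h; exact h7 _ _
    · exact (hdist j i h).2.1
  · intro n
    show dist (p n).1 (p n).2 < tol (((List.range n).map (fun i => ((p i).1, (p i).2))).reverse)
    rw [← hhist n]
    exact h9 n (hist n)

theorem exists_base [CompactSpace L] [Nonempty L] : ∃ G : ℕ → Set L, (∀ n, IsOpen (G n)) ∧
    (∀ n, (G n).Nonempty) ∧ ∀ U : Set L, IsOpen U → U.Nonempty → ∃ n, G n ⊆ U := by
  obtain ⟨B, hBc, hBne, hB⟩ := TopologicalSpace.exists_countable_basis L
  have hne : B.Nonempty := by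
    obtain ⟨x⟩ := (inferInstance : Nonempty L)
    obtain ⟨V, hV, _⟩ := hB.exists_subset_of_mem_open (mem_univ x) isOpen_univ
    exact ⟨V, hV⟩
  obtain ⟨G, hG⟩ := hBc.exists_eq_range hne
  refine ⟨G, fun n => hB.isOpen (by rw [hG]; exact ⟨n, rfl⟩), fun n => ?_, fun U hU hne => ?_⟩
  · by_contra h
    rw [not_nonempty_iff_eq_empty] at h
    apply hBne
    rw [← h, hG]
    exact ⟨n, rfl⟩
  · obtain ⟨x, hx⟩ := hne
    obtain ⟨V, hV, _, hVU⟩ := hB.exists_subset_of_mem_open hx hU
    rw [hG] at hV
    obtain ⟨n, rfl⟩ := hV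
    exact ⟨n, hVU⟩

theorem exists_eta (v : L) (F : Finset L) {c : ℝ} (hc : 0 < c) : ∃ η > 0, η ≤ c ∧
    ∀ e ∈ F, ∀ e' ∈ F, 0 < rho v e e' → η ≤ rho v e e' := by
  classical
  let P : Finset (L × L) := (F ×ˢ F).filter (fun q => 0 < rho v q.1 q.2)
  let V : Finset ℝ := insert c (P.image (fun q => rho v q.1 q.2))
  have hV : V.Nonempty := ⟨c, Finset.mem_insert_self _ _⟩
  refine ⟨V.min' hV, ?_, V.min'_le c (Finset.mem_insert_self _ _), ?_⟩
  · have := V.min'_mem hV
    rw [Finset.mem_insert, Finset.mem_image] at this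
    rcases this with h | ⟨q, hq, h⟩
    · rw [h]; exact hc
    · rw [← h]; exact (Finset.mem_filter.mp hq).2
  · intro e he e' he' hpos
    apply V.min'_le
    rw [Finset.mem_insert, Finset.mem_image]
    right
    exact ⟨(e, e'), Finset.mem_filter.mpr ⟨Finset.mem_product.mpr ⟨he, he'⟩, hpos⟩, rfl⟩

/-- The good null pairing. -/
theorem exists_nice [CompactSpace L] [ConnectedSpace L] (hL : IsLelekFan v) :
    ∃ (a b : ℕ → L) (ε : ℕ → ℝ), (∀ n, a n ∈ Ends v ∧ b n ∈ Ends v) ∧
      Function.Injective a ∧ Function.Injective b ∧ (∀ i j, a i ≠ b j) ∧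
      Dense (range a) ∧ Dense (range b) ∧ Tendsto (fun n => dist (a n) (b n)) atTop (𝓝 0) ∧
      (∀ m : ℕ, ∀ x y, Relation.ReflTransGen (Step v (1 / ((m : ℝ) + 1)) (ε m)) x y →
        rho v x y < 1 / ((m : ℝ) + 1)) ∧
      (∀ m : ℕ, ∀ i < m, ∀ j < m, ∀ e ∈ ({a i, b i} : Set L), ∀ e' ∈ ({a j, b j} : Set L), e ≠ e' →
        ¬ Relation.ReflTransGen (Step v (1 / ((m : ℝ) + 1)) (ε m)) e e') ∧
      (∀ m i : ℕ, m ≤ i → dist (a i) (b i) < ε m) := by
  classical
  obtain ⟨G, hGo, hGne, hGb⟩ := exists_base (L := L)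
  let F : List (L × L) → Finset L := fun l => (l.map Prod.fst ++ l.map Prod.snd).toFinset
  have hη : ∀ l : List (L × L), ∃ η > 0, η ≤ 1 / ((l.length : ℝ) + 1) ∧
      ∀ e ∈ F l, ∀ e' ∈ F l, 0 < rho v e e' → η ≤ rho v e e' :=
    fun l => exists_eta v (F l) (by positivity)
  choose η hη0 hη1 hη2 using hη
  have hε : ∀ l : List (L × L), ∃ ε > 0, ε ≤ 1 / ((l.length : ℝ) + 1) ∧
      ∀ x y, Relation.ReflTransGen (Step v (1 / ((l.length : ℝ) + 1)) ε) x y →
        rho v x y < η l := by
    intro l
    obtain ⟨ε, hε0, hε1⟩ := chain_bound hL.fan hL.smooth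
      (by positivity : (0 : ℝ) < 1 / ((l.length : ℝ) + 1)) (hη0 l)
    refine ⟨min ε (1 / ((l.length : ℝ) + 1)), lt_min hε0 (by positivity), min_le_right _ _, ?_⟩
    intro x y hxy
    apply hε1
    exact Relation.ReflTransGen.mono (fun u w h =>
      ⟨h.1, h.2.1, lt_of_lt_of_le h.2.2 (min_le_left _ _)⟩) _ _ hxy
  choose ε hε0 hε1 hε2 using hε
  let tol : List (L × L) → ℝ := fun l => List.rec (ε []) (fun p l t => min (ε (p :: l)) t) l
  have tol_nil : tol [] = ε [] := rfl
  have tol_cons : ∀ p l, tol (p :: l) = min (ε (p :: l)) (tol l) := fun p l => rfl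
  have htol : ∀ l, 0 < tol l := by
    intro l
    induction l with
    | nil => rw [tol_nil]; exact hε0 _
    | cons p l ih => rw [tol_cons]; exact lt_min (hε0 _) ih
  obtain ⟨a, b, hab, hainj, hbinj, hne, hdist⟩ := exists_selection hL (K := ∅) isClosed_empty
    (by rw [compl_empty]; exact dense_univ) tol htol G hGo hGne
  let hist : ℕ → List (L × L) := fun n => ((List.range n).map (fun i => (a i, b i))).reverse
  have histS : ∀ n, hist (n + 1) = (a n, b n) :: hist n := by
    intro n
    simp [hist, List.range_succ]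
  have hlen : ∀ n, (hist n).length = n := by intro n; simp [hist]
  have htolε : ∀ n m, m ≤ n → tol (hist n) ≤ ε (hist m) := by
    intro n
    induction n with
    | zero =>
      intro m hm
      have : m = 0 := by omega
      subst this
      exact le_of_eq tol_nil
    | succ n ih =>
      intro m hm
      rcases Nat.lt_or_ge n m with h | h
      · have : m = n + 1 := by omega
        subst this
        rw [histS, tol_cons]
        exact min_le_left _ _
      · have h1 := ih m h
        rw [histS, tol_cons]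
        exact le_trans (min_le_right _ _) h1
  have hFmem : ∀ m i, i < m → a i ∈ F (hist m) ∧ b i ∈ F (hist m) := by
    intro m i him
    simp only [F, hist, List.mem_toFinset, List.mem_append, List.mem_map, List.mem_reverse,
      List.mem_range]
    exact ⟨Or.inl ⟨(a i, b i), ⟨i, him, rfl⟩, rfl⟩, Or.inr ⟨(a i, b i), ⟨i, him, rfl⟩, rfl⟩⟩
  refine ⟨a, b, fun m => ε (hist m), fun n => ⟨(hab n).2.2.1, (hab n).2.2.2.1⟩, hainj, hbinj, hne,
    ?_, ?_, ?_, ?_, ?_, ?_⟩
  · rw [dense_iff_inter_open]
    intro U hU hUne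
    obtain ⟨n, hn⟩ := hGb U hU hUne
    exact ⟨a n, hn (hab n).1, ⟨n, rfl⟩⟩
  · rw [dense_iff_inter_open]
    intro U hU hUne
    obtain ⟨n, hn⟩ := hGb U hU hUne
    exact ⟨b n, hn (hab n).2.1, ⟨n, rfl⟩⟩
  · apply squeeze_zero (fun n => dist_nonneg) (g := fun n : ℕ => 1 / ((n : ℝ) + 1))
    · intro n
      have h1 := hdist n
      have h2 := htolε n n le_rfl
      have h3 := hε1 (hist n)
      rw [hlen] at h3
      exact (h1.le.trans h2).trans h3
    · exact tendsto_one_div_add_atTop_nhds_zero_nat
  · intro m x y hxy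
    have h1 := hε2 (hist m) x y
    have h2 := hη1 (hist m)
    rw [hlen] at h1 h2
    exact lt_of_lt_of_le (h1 hxy) h2
  · intro m i hi j hj e he e' he' hee hch
    have h1 := hε2 (hist m) e e'
    rw [hlen] at h1
    have h2 := h1 hch
    have heF : e ∈ F (hist m) := by
      rcases he with h | h
      · rw [h]; exact (hFmem m i hi).1
      · rw [mem_singleton_iff.mp h]; exact (hFmem m i hi).2
    have heF' : e' ∈ F (hist m) := by
      rcases he' with h | h
      · rw [h]; exact (hFmem m j hj).1
      · rw [mem_singleton_iff.mp h]; exact (hFmem m j hj).2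
    have heE : e ∈ Ends v := by
      rcases he with h | h
      · rw [h]; exact (hab i).2.2.1
      · rw [mem_singleton_iff.mp h]; exact (hab i).2.2.2.1
    have heE' : e' ∈ Ends v := by
      rcases he' with h | h
      · rw [h]; exact (hab j).2.2.1
      · rw [mem_singleton_iff.mp h]; exact (hab j).2.2.2.1
    have hpos : 0 < rho v e e' := by
      apply lt_of_le_of_ne Metric.infDist_nonneg
      intro h0
      have := (rho_eq_zero hL.fan hL.smooth).mp h0.symm
      exact hee (this.eq_of_Ends heE heE')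
    have := hη2 (hist m) e heF e' heF' hpos
    linarith
  · intro m i hmi
    exact lt_of_lt_of_le (hdist i) (htolε i m hmi)

/-! ### The quotient -/

section Quot
variable {a b : ℕ → L} (h : IsPairing a b)

theorem rel_iff {x y : L} : decomposition a b h x y ↔
    (x = y ∨ ∃ i, (x = a i ∧ y = b i) ∨ (x = b i ∧ y = a i)) := Iff.rfl

theorem class_finite (x : L) : {z | decomposition a b h x z}.Finite := by
  have hsub : {z | decomposition a b h x z} ⊆
      {x} ∪ ({z | ∃ i, x = a i ∧ z = b i} ∪ {z | ∃ i, x = b i ∧ z = a i}) := by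
    rintro z (hz | ⟨i, hz | hz⟩)
    · left; exact hz.symm
    · right; left; exact ⟨i, hz⟩
    · right; right; exact ⟨i, hz⟩
  apply Set.Finite.subset _ hsub
  apply (finite_singleton x).union
  apply Set.Finite.union
  · apply Set.Subsingleton.finite
    rintro z ⟨i, h1, h2⟩ z' ⟨j, h3, h4⟩
    have : i = j := h.injective_left (h1.symm.trans h3)
    rw [h2, h4, this]
  · apply Set.Subsingleton.finite
    rintro z ⟨i, h1, h2⟩ z' ⟨j, h3, h4⟩
    have : i = j := h.injective_right (h1.symm.trans h3)
    rw [h2, h4, this]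

theorem usc_of_null (hnull : Tendsto (fun n => dist (a n) (b n)) atTop (𝓝 0)) :
    IsUpperSemicontinuous (decomposition a b h) := by
  intro x U hU hxU
  have hDf := class_finite h x
  obtain ⟨r, hr0, hr⟩ := hDf.isCompact.exists_thickening_subset_open hU hxU
  have hev : ∀ᶠ n in atTop, dist (a n) (b n) < r / 2 := hnull.eventually (gt_mem_nhds (by linarith))
  obtain ⟨N, hN⟩ := eventually_atTop.mp hev
  let R : Set L := (a '' Iio N ∪ b '' Iio N) \ {z | decomposition a b h x z}
  have hRf : R.Finite :=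
    (((finite_Iio N).image a).union ((finite_Iio N).image b)).subset sdiff_subset
  refine ⟨Metric.thickening (r / 2) {z | decomposition a b h x z} \ R,
    Metric.isOpen_thickening.sdiff hRf.isClosed, ?_, ?_⟩
  · intro y hy
    exact ⟨Metric.self_subset_thickening (by linarith) _ hy, fun hyR => hyR.2 hy⟩
  · rintro y ⟨hy, hyR⟩ z hyz
    rw [Metric.mem_thickening_iff] at hy
    obtain ⟨d, hd, hyd⟩ := hy
    have hfar : dist y z < r / 2 → z ∈ U := by
      intro hlt
      apply hr
      rw [Metric.mem_thickening_iff]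
      refine ⟨d, hd, ?_⟩
      calc dist z d ≤ dist z y + dist y d := dist_triangle _ _ _
        _ < r / 2 + r / 2 := by rw [dist_comm z y]; exact add_lt_add hlt hyd
        _ = r := by ring
    have hyz' := (rel_iff h).mp hyz
    rcases hyz' with hyz' | ⟨i, ⟨h1, h2⟩ | ⟨h1, h2⟩⟩
    · apply hfar
      rw [hyz', dist_self]; linarith
    · rcases lt_or_ge i N with hi | hi
      · have hyD : decomposition a b h x y := by
          by_contra hno
          exact hyR ⟨Or.inl ⟨i, hi, h1.symm⟩, hno⟩
        exact hxU z ((decomposition a b h).trans hyD hyz)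
      · apply hfar
        rw [h1, h2]; exact hN i hi
    · rcases lt_or_ge i N with hi | hi
      · have hyD : decomposition a b h x y := by
          by_contra hno
          exact hyR ⟨Or.inr ⟨i, hi, h1.symm⟩, hno⟩
        exact hxU z ((decomposition a b h).trans hyD hyz)
      · apply hfar
        rw [h1, h2, dist_comm]; exact hN i hi

theorem t2_quotient (hu : IsUpperSemicontinuous (decomposition a b h)) :
    T2Space (Quotient (decomposition a b h)) := by
  refine ⟨fun X Y hXY => ?_⟩
  obtain ⟨x, rfl⟩ := Quotient.exists_rep X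
  obtain ⟨y, rfl⟩ := Quotient.exists_rep Y
  have hxy : ¬ decomposition a b h x y := fun hxy => hXY (Quotient.sound hxy)
  have hdisj : Disjoint {z | decomposition a b h x z} {z | decomposition a b h y z} := by
    rw [Set.disjoint_left]
    intro z hz1 hz2
    exact hxy ((decomposition a b h).trans hz1 ((decomposition a b h).symm hz2))
  obtain ⟨U₁, U₂, hU₁, hU₂, hx, hy, hU⟩ :=
    SeparatedNhds.of_isCompact_isCompact (class_finite h x).isCompact
      (class_finite h y).isCompact hdisj
  have hopen : ∀ U : Set L, IsOpen U → IsOpen {z | ∀ w, decomposition a b h z w → w ∈ U} := by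
    intro U hU
    rw [isOpen_iff_forall_mem_open]
    intro z hz
    obtain ⟨V, hV, hzV, hVU⟩ := hu z U hU hz
    exact ⟨V, fun y hy w hw => hVU y hy w hw, hV, hzV z ((decomposition a b h).refl z)⟩
  have hsat : ∀ U : Set L, Quotient.mk (decomposition a b h) ⁻¹'
      (Quotient.mk (decomposition a b h) '' {z | ∀ w, decomposition a b h z w → w ∈ U}) =
      {z | ∀ w, decomposition a b h z w → w ∈ U} := by
    intro U
    apply Subset.antisymm _ (subset_preimage_image _ _)
    rintro z ⟨z', hz', hzz⟩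
    have hrel : decomposition a b h z' z := Quotient.exact hzz
    intro w hw
    exact hz' w ((decomposition a b h).trans hrel hw)
  refine ⟨Quotient.mk (decomposition a b h) '' {z | ∀ w, decomposition a b h z w → w ∈ U₁},
    Quotient.mk (decomposition a b h) '' {z | ∀ w, decomposition a b h z w → w ∈ U₂},
    isOpen_coinduced.mpr ?_, isOpen_coinduced.mpr ?_, ⟨x, hx, rfl⟩, ⟨y, hy, rfl⟩, ?_⟩
  · have := hopen U₁ hU₁
    rw [← hsat U₁] at this
    exact this
  · have := hopen U₂ hU₂
    rw [← hsat U₂] at this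
    exact this
  · rw [Set.disjoint_left]
    rintro _ ⟨z, hz, rfl⟩ ⟨z', hz', hzz⟩
    have hrel : decomposition a b h z' z := Quotient.exact hzz
    exact (Set.disjoint_left.mp hU) (hz z ((decomposition a b h).refl z)) (hz' z hrel)

/-- The separation principle in the quotient. -/
theorem separation [CompactSpace L] [T2Space (Quotient (decomposition a b h))]
    {T : Set (Quotient (decomposition a b h))} (hTc : IsClosed T) (hTp : IsPreconnected T)
    {A B : Set L} (hA : IsClosed A) (hB : IsClosed B)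
    (hcov : ∀ x, Quotient.mk (decomposition a b h) x ∈ T → x ∈ A ∨ x ∈ B)
    (hAn : ∃ x ∈ A, Quotient.mk (decomposition a b h) x ∈ T)
    (hBn : ∃ x ∈ B, Quotient.mk (decomposition a b h) x ∈ T) :
    ∃ x ∈ A, ∃ y ∈ B, Quotient.mk (decomposition a b h) x ∈ T ∧ decomposition a b h x y := by
  have hq : Continuous (Quotient.mk (decomposition a b h)) := continuous_quotient_mk'
  have hTc' : IsClosed (Quotient.mk (decomposition a b h) ⁻¹' T) := hTc.preimage hq
  have h1 : IsClosed (Quotient.mk (decomposition a b h) ''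
      (A ∩ Quotient.mk (decomposition a b h) ⁻¹' T)) :=
    ((hA.inter hTc').isCompact.image hq).isClosed
  have h2 : IsClosed (Quotient.mk (decomposition a b h) ''
      (B ∩ Quotient.mk (decomposition a b h) ⁻¹' T)) :=
    ((hB.inter hTc').isCompact.image hq).isClosed
  rw [isPreconnected_closed_iff] at hTp
  obtain ⟨t, htT, ⟨x, ⟨hxA, hxT⟩, hxt⟩, ⟨y, ⟨hyB, _⟩, hyt⟩⟩ := hTp _ _ h1 h2 (by
    intro t ht
    obtain ⟨x, rfl⟩ := Quotient.exists_rep t
    rcases hcov x ht with hx | hx
    · left; exact ⟨x, ⟨hx, ht⟩, rfl⟩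
    · right; exact ⟨x, ⟨hx, ht⟩, rfl⟩)
    (by
      obtain ⟨x, hx, hxT⟩ := hAn
      exact ⟨_, hxT, ⟨x, ⟨hx, hxT⟩, rfl⟩⟩)
    (by
      obtain ⟨x, hx, hxT⟩ := hBn
      exact ⟨_, hxT, ⟨x, ⟨hx, hxT⟩, rfl⟩⟩)
  exact ⟨x, hxA, y, hyB, hxT, Quotient.exact (hxt.trans hyt.symm)⟩

theorem isClosed_rel [CompactSpace L] [T2Space (Quotient (decomposition a b h))] :
    IsClosed {p : L × L | decomposition a b h p.1 p.2} := by
  have hq : Continuous (Quotient.mk (decomposition a b h)) := continuous_quotient_mk'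
  have h1 : {p : L × L | decomposition a b h p.1 p.2} =
      {p : L × L | Quotient.mk (decomposition a b h) p.1 = Quotient.mk (decomposition a b h) p.2} := by
    ext p
    exact ⟨fun hp => Quotient.sound hp, fun hp => Quotient.exact hp⟩
  rw [h1]
  exact isClosed_eq (hq.comp continuous_fst) (hq.comp continuous_snd)

theorem step_symm {δ ε : ℝ} {x y : L} (hxy : Step v δ ε x y) : Step v δ ε y x :=
  ⟨hxy.2.1, hxy.1, by rw [dist_comm]; exact hxy.2.2⟩

theorem chain_far {δ ε : ℝ} {x y : L} (hx : δ ≤ dist x v)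
    (hxy : Relation.ReflTransGen (Step v δ ε) x y) : δ ≤ dist y v := by
  rcases Relation.ReflTransGen.cases_tail hxy with h | ⟨c, _, h⟩
  · rw [h]; exact hx
  · exact h.2.1

/-- The key property of the good pairing, first form. -/
theorem nice_step [CompactSpace L] {ε : ℕ → ℝ}
    [T2Space (Quotient (decomposition a b h))]
    (hN1 : ∀ m : ℕ, ∀ x y, Relation.ReflTransGen (Step v (1 / ((m : ℝ) + 1)) (ε m)) x y →
        rho v x y < 1 / ((m : ℝ) + 1))
    (hN2 : ∀ m : ℕ, ∀ i < m, ∀ j < m, ∀ e ∈ ({a i, b i} : Set L), ∀ e' ∈ ({a j, b j} : Set L),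
        e ≠ e' → ¬ Relation.ReflTransGen (Step v (1 / ((m : ℝ) + 1)) (ε m)) e e')
    (hN3 : ∀ m i : ℕ, m ≤ i → dist (a i) (b i) < ε m)
    {T : Set (Quotient (decomposition a b h))} (hTc : IsClosed T) (hTp : IsPreconnected T)
    {δ : ℝ} (hTδ : ∀ x, Quotient.mk (decomposition a b h) x ∈ T → δ ≤ dist x v)
    {x0 y0 : L} (hx0 : Quotient.mk (decomposition a b h) x0 ∈ T)
    (hy0 : Quotient.mk (decomposition a b h) y0 ∈ T) (m : ℕ) (hm : 1 / ((m : ℝ) + 1) ≤ δ) :
    ∃ p p', decomposition a b h p p' ∧ δ ≤ dist p v ∧ δ ≤ dist p' v ∧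
      rho v x0 p < 1 / ((m : ℝ) + 1) ∧ rho v p' y0 < 1 / ((m : ℝ) + 1) := by
  have hεpos : 0 < ε m := lt_of_le_of_lt dist_nonneg (hN3 m m le_rfl)
  have hmono : ∀ x y, Relation.ReflTransGen (Step v δ (ε m)) x y →
      Relation.ReflTransGen (Step v (1 / ((m : ℝ) + 1)) (ε m)) x y := fun x y hxy =>
    Relation.ReflTransGen.mono (fun u w hu => ⟨hm.trans hu.1, hm.trans hu.2.1, hu.2.2⟩) _ _ hxy
  let P : L → Prop := fun y => Relation.ReflTransGen (Step v δ (ε m)) x0 y ∨
    ∃ i < m, (Relation.ReflTransGen (Step v δ (ε m)) x0 (a i) ∧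
        Relation.ReflTransGen (Step v δ (ε m)) (b i) y) ∨
      (Relation.ReflTransGen (Step v δ (ε m)) x0 (b i) ∧
        Relation.ReflTransGen (Step v δ (ε m)) (a i) y)
  have hPstep : ∀ y z, Step v δ (ε m) y z → P y → P z := by
    rintro y z hyz (h1 | ⟨i, hi, ⟨h1, h2⟩ | ⟨h1, h2⟩⟩)
    · exact Or.inl (h1.tail hyz)
    · exact Or.inr ⟨i, hi, Or.inl ⟨h1, h2.tail hyz⟩⟩
    · exact Or.inr ⟨i, hi, Or.inr ⟨h1, h2.tail hyz⟩⟩
  have hq : Continuous (Quotient.mk (decomposition a b h)) := continuous_quotient_mk'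
  have hTc' : IsClosed {x | Quotient.mk (decomposition a b h) x ∈ T} := hTc.preimage hq
  -- closedness of invariant sets
  have hclosed : ∀ R : L → Prop, (∀ y z, Step v δ (ε m) y z → R y → R z) →
      IsClosed {x | Quotient.mk (decomposition a b h) x ∈ T ∧ R x} := by
    intro R hR
    rw [← isSeqClosed_iff_isClosed]
    intro u y hu huy
    have hyT : Quotient.mk (decomposition a b h) y ∈ T :=
      hTc'.mem_of_tendsto huy (Eventually.of_forall fun n => (hu n).1)
    refine ⟨hyT, ?_⟩
    have hev : ∀ᶠ n in atTop, dist (u n) y < ε m := by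
      have := (tendsto_iff_dist_tendsto_zero.mp huy)
      exact this.eventually (gt_mem_nhds hεpos)
    obtain ⟨n, hn⟩ := hev.exists
    exact hR (u n) y ⟨hTδ _ (hu n).1, hTδ _ hyT, hn⟩ (hu n).2
  by_cases hPy : P y0
  · -- conclude
    have hx0δ := hTδ _ hx0
    have hy0δ := hTδ _ hy0
    rcases hPy with h1 | ⟨i, hi, ⟨h1, h2⟩ | ⟨h1, h2⟩⟩
    · exact ⟨y0, y0, (decomposition a b h).refl y0, hy0δ, hy0δ, hN1 m _ _ (hmono _ _ h1), by
        rw [rho_self]; positivity⟩
    · refine ⟨a i, b i, Or.inr ⟨i, Or.inl ⟨rfl, rfl⟩⟩, chain_far hx0δ h1, ?_,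
        hN1 m _ _ (hmono _ _ h1), hN1 m _ _ (hmono _ _ h2)⟩
      rcases Relation.ReflTransGen.cases_head h2 with h3 | ⟨c, h3, _⟩
      · rw [h3]; exact hy0δ
      · exact h3.1
    · refine ⟨b i, a i, Or.inr ⟨i, Or.inr ⟨rfl, rfl⟩⟩, chain_far hx0δ h1, ?_,
        hN1 m _ _ (hmono _ _ h1), hN1 m _ _ (hmono _ _ h2)⟩
      rcases Relation.ReflTransGen.cases_head h2 with h3 | ⟨c, h3, _⟩
      · rw [h3]; exact hy0δ
      · exact h3.1
  · exfalso
    have hnP : ∀ y z, Step v δ (ε m) y z → ¬ P y → ¬ P z := by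
      intro y z hyz hy hz
      exact hy (hPstep z y (step_symm hyz) hz)
    obtain ⟨x, ⟨hxT, hxP⟩, y, ⟨hyT, hyP⟩, _, hxy⟩ := separation h hTc hTp (hclosed P hPstep)
      (hclosed (fun z => ¬ P z) hnP)
      (fun x hx => by
        by_cases hP : P x
        · left; exact ⟨hx, hP⟩
        · right; exact ⟨hx, hP⟩)
      ⟨x0, ⟨hx0, Or.inl Relation.ReflTransGen.refl⟩, hx0⟩ ⟨y0, ⟨hy0, hPy⟩, hy0⟩
    apply hyP
    have hxδ := hTδ _ hxT
    have hyδ := hTδ _ hyT
    rcases (rel_iff h).mp hxy with hxy | ⟨j, hj⟩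
    · rw [← hxy]; exact hxP
    rcases Nat.lt_or_ge j m with hjm | hjm
    · rcases hj with ⟨hx1, hy1⟩ | ⟨hx1, hy1⟩
      · subst hx1; subst hy1
        rcases hxP with h1 | ⟨i, hi, ⟨h1, h2⟩ | ⟨h1, h2⟩⟩
        · exact Or.inr ⟨j, hjm, Or.inl ⟨h1, Relation.ReflTransGen.refl⟩⟩
        · exact absurd (hmono _ _ h2) (hN2 m i hi j hjm (b i) (by simp) (a j) (by simp)
            (h.disjoint j i).symm)
        · by_cases hij : i = j
          · subst hij; exact Or.inl h1
          · exact absurd (hmono _ _ h2) (hN2 m i hi j hjm (a i) (by simp) (a j) (by simp)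
              (fun hc => hij (h.injective_left hc)))
      · subst hx1; subst hy1
        rcases hxP with h1 | ⟨i, hi, ⟨h1, h2⟩ | ⟨h1, h2⟩⟩
        · exact Or.inr ⟨j, hjm, Or.inr ⟨h1, Relation.ReflTransGen.refl⟩⟩
        · by_cases hij : i = j
          · subst hij; exact Or.inl h1
          · exact absurd (hmono _ _ h2) (hN2 m i hi j hjm (b i) (by simp) (b j) (by simp)
              (fun hc => hij (h.injective_right hc)))
        · exact absurd (hmono _ _ h2) (hN2 m i hi j hjm (a i) (by simp) (b j) (by simp)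
            (h.disjoint i j))
    · apply hPstep x y _ hxP
      refine ⟨hxδ, hyδ, ?_⟩
      rcases hj with ⟨hx1, hy1⟩ | ⟨hx1, hy1⟩
      · rw [hx1, hy1]; exact hN3 m j hjm
      · rw [hx1, hy1, dist_comm]; exact hN3 m j hjm

/-- The properties of the good pairing, collected. -/
structure Nice (v : L) (a b : ℕ → L) (ε : ℕ → ℝ) : Prop where
  ends : ∀ n, a n ∈ Ends v ∧ b n ∈ Ends v
  chain : ∀ m : ℕ, ∀ x y, Relation.ReflTransGen (Step v (1 / ((m : ℝ) + 1)) (ε m)) x y →
        rho v x y < 1 / ((m : ℝ) + 1)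
  sep : ∀ m : ℕ, ∀ i < m, ∀ j < m, ∀ e ∈ ({a i, b i} : Set L), ∀ e' ∈ ({a j, b j} : Set L),
        e ≠ e' → ¬ Relation.ReflTransGen (Step v (1 / ((m : ℝ) + 1)) (ε m)) e e'
  close : ∀ m i : ℕ, m ≤ i → dist (a i) (b i) < ε m

theorem nice_limit [CompactSpace L] (hF : IsFan v) (hS : IsSmooth v) {ε : ℕ → ℝ}
    [T2Space (Quotient (decomposition a b h))] (hN : Nice v a b ε)
    {T : Set (Quotient (decomposition a b h))} (hTc : IsClosed T) (hTp : IsPreconnected T)
    {δ : ℝ} (hδ : 0 < δ) (hTδ : ∀ x, Quotient.mk (decomposition a b h) x ∈ T → δ ≤ dist x v)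
    {x0 y0 : L} (hx0 : Quotient.mk (decomposition a b h) x0 ∈ T)
    (hy0 : Quotient.mk (decomposition a b h) y0 ∈ T) :
    ∃ p p', decomposition a b h p p' ∧ p ≠ v ∧ p' ≠ v ∧ Comp v x0 p ∧ Comp v p' y0 := by
  obtain ⟨m0, hm0⟩ := exists_nat_one_div_lt hδ
  have hstep : ∀ k : ℕ, ∃ p p', decomposition a b h p p' ∧ δ ≤ dist p v ∧ δ ≤ dist p' v ∧
      rho v x0 p < 1 / (((m0 + k : ℕ) : ℝ) + 1) ∧ rho v p' y0 < 1 / (((m0 + k : ℕ) : ℝ) + 1) := by
    intro k
    apply nice_step h hN.chain hN.sep hN.close hTc hTp hTδ hx0 hy0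
    refine le_trans ?_ hm0.le
    apply one_div_le_one_div_of_le (by positivity)
    push_cast
    linarith [(Nat.cast_nonneg k : (0 : ℝ) ≤ k)]
  choose p p' hpp hpδ hpδ' hr hr' using hstep
  obtain ⟨z, φ, hφ, hlim⟩ := CompactSpace.tendsto_subseq (fun k => (p k, p' k))
  obtain ⟨z1, z2⟩ := z
  have hz1 : Tendsto (fun k => p (φ k)) atTop (𝓝 z1) := (continuous_fst.tendsto _).comp hlim
  have hz2 : Tendsto (fun k => p' (φ k)) atTop (𝓝 z2) := (continuous_snd.tendsto _).comp hlim
  have ht0 : Tendsto (fun k : ℕ => 1 / (((m0 + φ k : ℕ) : ℝ) + 1)) atTop (𝓝 0) := by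
    have h1 : Tendsto (fun n : ℕ => 1 / ((n : ℝ) + 1)) atTop (𝓝 0) :=
      tendsto_one_div_add_atTop_nhds_zero_nat
    exact h1.comp (tendsto_atTop_mono (fun k => Nat.le_add_left (φ k) m0) hφ.tendsto_atTop)
  refine ⟨z1, z2, ?_, ?_, ?_, ?_, ?_⟩
  · have hcl := isClosed_rel h
    exact hcl.mem_of_tendsto hlim (Eventually.of_forall fun k => hpp _)
  · intro hz
    have h1 : δ ≤ dist z1 v := ge_of_tendsto' (hz1.dist tendsto_const_nhds) (fun k => hpδ _)
    rw [hz, dist_self] at h1
    linarith
  · intro hz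
    have h1 : δ ≤ dist z2 v := ge_of_tendsto' (hz2.dist tendsto_const_nhds) (fun k => hpδ' _)
    rw [hz, dist_self] at h1
    linarith
  · rw [← rho_eq_zero hF hS]
    have h1 : Tendsto (fun k => rho v x0 (p (φ k))) atTop (𝓝 (rho v x0 z1)) :=
      ((Metric.continuous_infDist_pt (CompSet v)).tendsto _).comp
        (tendsto_const_nhds.prodMk_nhds hz1)
    have h2 : Tendsto (fun k => rho v x0 (p (φ k))) atTop (𝓝 0) :=
      squeeze_zero (fun k => Metric.infDist_nonneg) (fun k => (hr (φ k)).le) ht0
    exact tendsto_nhds_unique h1 h2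
  · rw [← rho_eq_zero hF hS]
    have h1 : Tendsto (fun k => rho v (p' (φ k)) y0) atTop (𝓝 (rho v z2 y0)) :=
      ((Metric.continuous_infDist_pt (CompSet v)).tendsto _).comp
        (hz2.prodMk_nhds tendsto_const_nhds)
    have h2 : Tendsto (fun k => rho v (p' (φ k)) y0) atTop (𝓝 0) :=
      squeeze_zero (fun k => Metric.infDist_nonneg) (fun k => (hr' (φ k)).le) ht0
    exact tendsto_nhds_unique h1 h2

/-- A compact connected subset of the quotient avoiding the top lies over one ray or over the two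
rays of one pair. -/
theorem nice_alternative [CompactSpace L] (hF : IsFan v) (hS : IsSmooth v) {ε : ℕ → ℝ}
    [T2Space (Quotient (decomposition a b h))] (hN : Nice v a b ε)
    {T : Set (Quotient (decomposition a b h))} (hTc : IsClosed T) (hTp : IsPreconnected T)
    (hTv : Quotient.mk (decomposition a b h) v ∉ T) :
    (∀ x y, Quotient.mk (decomposition a b h) x ∈ T → Quotient.mk (decomposition a b h) y ∈ T →
      Comp v x y) ∨
    (∃ i, ∀ x, Quotient.mk (decomposition a b h) x ∈ T → x ∈ seg v (a i) ∨ x ∈ seg v (b i)) := by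
  have hq : Continuous (Quotient.mk (decomposition a b h)) := continuous_quotient_mk'
  have hTc' : IsClosed {x | Quotient.mk (decomposition a b h) x ∈ T} := hTc.preimage hq
  obtain ⟨δ, hδ, hball⟩ := Metric.isOpen_iff.mp hTc'.isOpen_compl v hTv
  have hTδ : ∀ x, Quotient.mk (decomposition a b h) x ∈ T → δ ≤ dist x v := by
    intro x hx
    by_contra hlt
    push Not at hlt
    exact hball (Metric.mem_ball.mpr hlt) hx
  have hne : ∀ x, Quotient.mk (decomposition a b h) x ∈ T → x ≠ v := by
    intro x hx hxv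
    have := hTδ x hx
    rw [hxv, dist_self] at this
    linarith
  by_cases hall : ∀ x y, Quotient.mk (decomposition a b h) x ∈ T →
      Quotient.mk (decomposition a b h) y ∈ T → Comp v x y
  · left; exact hall
  right
  push Not at hall
  obtain ⟨x0, y0, hx0, hy0, hnc⟩ := hall
  obtain ⟨z, z', hzz, hzv, hzv', hxz, hzy⟩ := nice_limit h hF hS hN hTc hTp hδ hTδ hx0 hy0
  have hmem : ∀ x e, e ∈ Ends v → Comp v x e → x ∈ seg v e := by
    intro x e he hc
    rcases hc with hc | hc
    · exact hc
    · rw [he x hc]; exact right_mem_seg _ _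
  rcases (rel_iff h).mp hzz with hzz1 | ⟨i, hi⟩
  · exfalso
    rw [← hzz1] at hzy
    exact hnc (Comp.trans hF hzv hxz hzy)
  have hends : z ∈ Ends v ∧ z' ∈ Ends v := by
    rcases hi with ⟨h1, h2⟩ | ⟨h1, h2⟩
    · rw [h1, h2]; exact hN.ends i
    · rw [h1, h2]; exact (hN.ends i).symm
  refine ⟨i, fun y hy => ?_⟩
  have hy' : Comp v y z ∨ Comp v y z' := by
    obtain ⟨w, w', hww, hwv, hwv', hxw, hwy⟩ := nice_limit h hF hS hN hTc hTp hδ hTδ hx0 hy
    rcases (rel_iff h).mp hww with hww1 | ⟨j, hj⟩
    · left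
      rw [← hww1] at hwy
      have h1 : Comp v x0 y := Comp.trans hF hwv hxw hwy
      exact Comp.trans hF (hne x0 hx0) h1.symm hxz
    · have hwE : w ∈ Ends v := by
        rcases hj with ⟨h1, h2⟩ | ⟨h1, h2⟩
        · rw [h1]; exact (hN.ends j).1
        · rw [h1]; exact (hN.ends j).2
      have hwz : w = z :=
        (Comp.trans hF (hne x0 hx0) hxw.symm hxz).eq_of_Ends hwE hends.1
      subst hwz
      have hw'z' : w' = z' := by
        rcases hi with ⟨h1, h2⟩ | ⟨h1, h2⟩ <;> rcases hj with ⟨h3, h4⟩ | ⟨h3, h4⟩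
        · have : i = j := h.injective_left (h1.symm.trans h3)
          rw [h4, h2, this]
        · exact absurd (h1.symm.trans h3) (h.disjoint i j)
        · exact absurd (h3.symm.trans h1) (h.disjoint j i)
        · have : i = j := h.injective_right (h1.symm.trans h3)
          rw [h4, h2, this]
      subst hw'z'
      right
      exact hwy.symm
  rcases hi with ⟨h1, h2⟩ | ⟨h1, h2⟩
  · rcases hy' with h3 | h3
    · left; rw [← h1]; exact hmem y z hends.1 h3
    · right; rw [← h2]; exact hmem y z' hends.2 h3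
  · rcases hy' with h3 | h3
    · right; rw [← h1]; exact hmem y z hends.1 h3
    · left; rw [← h2]; exact hmem y z' hends.2 h3

/-- In a compact set of pairwise comparable points there is a largest one. -/
theorem exists_top_point [CompactSpace L] (hF : IsFan v) (hS : IsSmooth v) {T : Set L}
    (hTc : IsClosed T) (hTn : T.Nonempty) (hT : ∀ x ∈ T, ∀ y ∈ T, Comp v x y) :
    ∃ w ∈ T, ∀ x ∈ T, x ∈ seg v w := by
  classical
  have hcl := isClosed_order hF hS
  have hfin : ∀ u : Finset T, ∃ w ∈ T, ∀ x ∈ u, (x : L) ∈ seg v w := by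
    intro u
    induction u using Finset.induction_on with
    | empty =>
      obtain ⟨w, hw⟩ := hTn
      exact ⟨w, hw, by simp⟩
    | insert y u _ ih =>
      obtain ⟨w, hw, hwu⟩ := ih
      rcases hT y y.2 w hw with h1 | h1
      · refine ⟨w, hw, fun x hx => ?_⟩
        rcases Finset.mem_insert.mp hx with h2 | h2
        · rw [h2]; exact h1
        · exact hwu x h2
      · refine ⟨y, y.2, fun x hx => ?_⟩
        rcases Finset.mem_insert.mp hx with h2 | h2
        · rw [h2]; exact right_mem_seg _ _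
        · exact seg_subset hF h1 (hwu x h2)
  have hne := hTc.isCompact.inter_iInter_nonempty (fun x : T => {w : L | (x : L) ∈ seg v w})
    (fun x => hcl.preimage (by fun_prop : Continuous (fun w : L => ((x : L), w))))
    (fun u => by
      obtain ⟨w, hw, hwu⟩ := hfin u
      exact ⟨w, hw, mem_iInter₂.mpr hwu⟩)
  obtain ⟨w, hw, hwT⟩ := hne
  exact ⟨w, hw, fun x hx => mem_iInter.mp hwT ⟨x, hx⟩⟩

theorem exists_coord [CompactSpace L] (hF : IsFan v) (hS : IsSmooth v) {ε : ℕ → ℝ}
    [T2Space (Quotient (decomposition a b h))] (hN : Nice v a b ε)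
    {T : Set (Quotient (decomposition a b h))} (hTc : IsClosed T) (hTp : IsPreconnected T)
    (hTv : Quotient.mk (decomposition a b h) v ∉ T) (hTn : T.Nonempty) :
    ∃ c : L → ℝ, (∀ s, IsClosed {u | Quotient.mk (decomposition a b h) u ∈ T ∧ c u ≤ s}) ∧
      (∀ s, IsClosed {u | Quotient.mk (decomposition a b h) u ∈ T ∧ s ≤ c u}) ∧
      (∀ u u', Quotient.mk (decomposition a b h) u ∈ T → Quotient.mk (decomposition a b h) u' ∈ T →
        (c u = c u' ↔ decomposition a b h u u')) := by
  have hq : Continuous (Quotient.mk (decomposition a b h)) := continuous_quotient_mk'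
  have hTc' : IsClosed {x | Quotient.mk (decomposition a b h) x ∈ T} := hTc.preimage hq
  have hne : ∀ x, Quotient.mk (decomposition a b h) x ∈ T → x ≠ v := by
    intro x hx hxv
    rw [hxv] at hx
    exact hTv hx
  rcases nice_alternative h hF hS hN hTc hTp hTv with hA | ⟨i, hB⟩
  · obtain ⟨t, ht⟩ := hTn
    obtain ⟨x1, rfl⟩ := Quotient.exists_rep t
    obtain ⟨w, hw, hwT⟩ := exists_top_point hF hS hTc' ⟨x1, ht⟩ (fun x hx y hy => hA x y hx hy)
    obtain ⟨γ, hγ, hinj, h0, h1, hseg, hr⟩ := exists_param hF (hne w hw)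
    have hinv : ∀ t, Function.invFun γ (γ t) = t := Function.leftInverse_invFun hinj
    have hcl : ∀ R : Set unitInterval, IsClosed R → IsClosed (γ '' R) := fun R hR =>
      (param_closedEmbedding hγ hinj).isClosedMap _ hR
    refine ⟨fun u => ((Function.invFun γ u : unitInterval) : ℝ), fun s => ?_, fun s => ?_, ?_⟩
    · have : {u | Quotient.mk (decomposition a b h) u ∈ T ∧ ((Function.invFun γ u : unitInterval) : ℝ) ≤ s} =
          {u | Quotient.mk (decomposition a b h) u ∈ T} ∩ γ '' {t | (t : ℝ) ≤ s} := by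
        ext u
        constructor
        · rintro ⟨hu, hc⟩
          have : u ∈ range γ := by rw [← hr]; exact hwT u hu
          obtain ⟨t, rfl⟩ := this
          rw [hinv] at hc
          exact ⟨hu, t, hc, rfl⟩
        · rintro ⟨hu, t, hc, rfl⟩
          exact ⟨hu, by rw [hinv]; exact hc⟩
      rw [this]
      exact hTc'.inter (hcl _ (isClosed_le continuous_subtype_val continuous_const))
    · have : {u | Quotient.mk (decomposition a b h) u ∈ T ∧ s ≤ ((Function.invFun γ u : unitInterval) : ℝ)} =
          {u | Quotient.mk (decomposition a b h) u ∈ T} ∩ γ '' {t | s ≤ (t : ℝ)} := by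
        ext u
        constructor
        · rintro ⟨hu, hc⟩
          have : u ∈ range γ := by rw [← hr]; exact hwT u hu
          obtain ⟨t, rfl⟩ := this
          rw [hinv] at hc
          exact ⟨hu, t, hc, rfl⟩
        · rintro ⟨hu, t, hc, rfl⟩
          exact ⟨hu, by rw [hinv]; exact hc⟩
      rw [this]
      exact hTc'.inter (hcl _ (isClosed_le continuous_const continuous_subtype_val))
    · intro u u' hu hu'
      have hu1 : u ∈ range γ := by rw [← hr]; exact hwT u hu
      have hu2 : u' ∈ range γ := by rw [← hr]; exact hwT u' hu'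
      obtain ⟨t, rfl⟩ := hu1
      obtain ⟨t', rfl⟩ := hu2
      constructor
      · intro hc
        simp only [hinv] at hc
        have : t = t' := Subtype.ext hc
        rw [this]
      · intro hrel
        have heq : γ t = γ t' := by
          rcases (rel_iff h).mp hrel with hrel | ⟨j, ⟨h3, h4⟩ | ⟨h3, h4⟩⟩
          · exact hrel
          · exfalso
            have := hA _ _ hu hu'
            rw [h3, h4] at this
            exact h.disjoint j j (this.eq_of_Ends (hN.ends j).1 (hN.ends j).2)
          · exfalso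
            have := hA _ _ hu hu'
            rw [h3, h4] at this
            exact h.disjoint j j (this.eq_of_Ends (hN.ends j).2 (hN.ends j).1).symm
        rw [heq]
  · have hai : a i ≠ v := fun hc => top_notMem_Ends hF (hc ▸ (hN.ends i).1)
    have hbi : b i ≠ v := fun hc => top_notMem_Ends hF (hc ▸ (hN.ends i).2)
    obtain ⟨γ, hγ, hinj, h0, h1, hseg, hr⟩ := exists_param hF hai
    obtain ⟨η, hη, hinj', h0', h1', hseg', hr'⟩ := exists_param hF hbi
    have hinv : ∀ t, Function.invFun γ (γ t) = t := Function.leftInverse_invFun hinj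
    have hinv' : ∀ t, Function.invFun η (η t) = t := Function.leftInverse_invFun hinj'
    have hcl : ∀ R : Set unitInterval, IsClosed R → IsClosed (γ '' R) := fun R hR =>
      (param_closedEmbedding hγ hinj).isClosedMap _ hR
    have hcl' : ∀ R : Set unitInterval, IsClosed R → IsClosed (η '' R) := fun R hR =>
      (param_closedEmbedding hη hinj').isClosedMap _ hR
    have hcross : ∀ u, u ≠ v → u ∈ range η → u ∉ range γ := by
      intro u hu hu1 hu2
      rw [← hr] at hu2
      rw [← hr'] at hu1
      rcases seg_trichotomy hF (a i) (b i) with h3 | h3 | h3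
      · exact h.disjoint i i ((hN.ends i).1 _ h3).symm
      · exact h.disjoint i i ((hN.ends i).2 _ h3)
      · apply hu
        have : u ∈ seg v (a i) ∩ seg v (b i) := ⟨hu2, hu1⟩
        rw [h3] at this
        exact this
    classical
    let c : L → ℝ := fun u => if u ∈ range γ then ((Function.invFun γ u : unitInterval) : ℝ) - 1 else
      1 - ((Function.invFun η u : unitInterval) : ℝ)
    have hcγ : ∀ t, c (γ t) = (t : ℝ) - 1 := by
      intro t
      simp only [c, mem_range_self, if_true, hinv]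
    have hcη : ∀ t, Quotient.mk (decomposition a b h) (η t) ∈ T → c (η t) = 1 - (t : ℝ) := by
      intro t ht
      simp only [c, if_neg (hcross _ (hne _ ht) ⟨t, rfl⟩), hinv']
    have hcase : ∀ u, Quotient.mk (decomposition a b h) u ∈ T →
        (∃ t, u = γ t) ∨ (∃ t, u = η t) := by
      intro u hu
      rcases hB u hu with h3 | h3
      · rw [hr] at h3
        obtain ⟨t, ht⟩ := h3
        left; exact ⟨t, ht.symm⟩
      · rw [hr'] at h3
        obtain ⟨t, ht⟩ := h3
        right; exact ⟨t, ht.symm⟩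
    refine ⟨c, fun s => ?_, fun s => ?_, ?_⟩
    · have : {u | Quotient.mk (decomposition a b h) u ∈ T ∧ c u ≤ s} =
          {u | Quotient.mk (decomposition a b h) u ∈ T} ∩
            (γ '' {t | (t : ℝ) - 1 ≤ s} ∪ η '' {t | 1 - (t : ℝ) ≤ s}) := by
        ext u
        constructor
        · rintro ⟨hu, hc⟩
          refine ⟨hu, ?_⟩
          rcases hcase u hu with ⟨t, rfl⟩ | ⟨t, rfl⟩
          · left; rw [hcγ] at hc; exact ⟨t, hc, rfl⟩
          · right; rw [hcη t hu] at hc; exact ⟨t, hc, rfl⟩
        · rintro ⟨hu, ⟨t, hc, rfl⟩ | ⟨t, hc, rfl⟩⟩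
          · exact ⟨hu, by rw [hcγ]; exact hc⟩
          · exact ⟨hu, by rw [hcη t hu]; exact hc⟩
      rw [this]
      exact hTc'.inter ((hcl _ (isClosed_le (by fun_prop) continuous_const)).union
        (hcl' _ (isClosed_le (by fun_prop) continuous_const)))
    · have : {u | Quotient.mk (decomposition a b h) u ∈ T ∧ s ≤ c u} =
          {u | Quotient.mk (decomposition a b h) u ∈ T} ∩
            (γ '' {t | s ≤ (t : ℝ) - 1} ∪ η '' {t | s ≤ 1 - (t : ℝ)}) := by
        ext u
        constructor
        · rintro ⟨hu, hc⟩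
          refine ⟨hu, ?_⟩
          rcases hcase u hu with ⟨t, rfl⟩ | ⟨t, rfl⟩
          · left; rw [hcγ] at hc; exact ⟨t, hc, rfl⟩
          · right; rw [hcη t hu] at hc; exact ⟨t, hc, rfl⟩
        · rintro ⟨hu, ⟨t, hc, rfl⟩ | ⟨t, hc, rfl⟩⟩
          · exact ⟨hu, by rw [hcγ]; exact hc⟩
          · exact ⟨hu, by rw [hcη t hu]; exact hc⟩
      rw [this]
      exact hTc'.inter ((hcl _ (isClosed_le continuous_const (by fun_prop))).union
        (hcl' _ (isClosed_le continuous_const (by fun_prop))))
    · intro u u' hu hu'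
      constructor
      · intro hc
        rcases hcase u hu with ⟨t, rfl⟩ | ⟨t, rfl⟩ <;> rcases hcase u' hu' with ⟨t', rfl⟩ | ⟨t', rfl⟩
        · rw [hcγ, hcγ] at hc
          have : t = t' := Subtype.ext (by linarith)
          rw [this]
        · rw [hcγ, hcη t' hu'] at hc
          have e1 := t.2.2
          have e2 := t'.2.2
          have h3 : t = 1 := Subtype.ext (by show (t : ℝ) = 1; linarith)
          have h4 : t' = 1 := Subtype.ext (by show (t' : ℝ) = 1; linarith)
          rw [h3, h4, h1, h1']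
          exact Or.inr ⟨i, Or.inl ⟨rfl, rfl⟩⟩
        · rw [hcγ, hcη t hu] at hc
          have e1 := t.2.2
          have e2 := t'.2.2
          have h3 : t = 1 := Subtype.ext (by show (t : ℝ) = 1; linarith)
          have h4 : t' = 1 := Subtype.ext (by show (t' : ℝ) = 1; linarith)
          rw [h3, h4, h1, h1']
          exact Or.inr ⟨i, Or.inr ⟨rfl, rfl⟩⟩
        · rw [hcη t hu, hcη t' hu'] at hc
          have : t = t' := Subtype.ext (by linarith)
          rw [this]
      · intro hrel
        have hends : ∀ e, e ∈ Ends v → Quotient.mk (decomposition a b h) e ∈ T →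
            e = a i ∨ e = b i := by
          intro e he heT
          rcases hB e heT with h3 | h3
          · left; exact (he _ h3).symm
          · right; exact (he _ h3).symm
        have hca : c (a i) = 0 := by rw [← h1, hcγ]; simp
        have hcb : Quotient.mk (decomposition a b h) (b i) ∈ T → c (b i) = 0 := by
          intro hb
          rw [← h1'] at hb
          rw [← h1', hcη _ hb]; simp
        rcases (rel_iff h).mp hrel with hrel | ⟨j, ⟨h3, h4⟩ | ⟨h3, h4⟩⟩
        · rw [hrel]
        · have hj : j = i := by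
            rcases hends (a j) (hN.ends j).1 (h3 ▸ hu) with h5 | h5
            · exact h.injective_left h5
            · exact absurd h5 (h.disjoint j i)
          subst hj
          rw [h3, h4, hca, hcb (h4 ▸ hu')]
        · have hj : j = i := by
            rcases hends (a j) (hN.ends j).1 (h4 ▸ hu') with h5 | h5
            · exact h.injective_left h5
            · exact absurd h5 (h.disjoint j i)
          subst hj
          rw [h3, h4, hca, hcb (h3 ▸ hu)]

/-- Three closed connected sets joining three points pairwise, each missing the third point. -/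
structure TriodLike {X : Type*} [TopologicalSpace X] (C₁ C₂ C₃ : Set X) (x y z : X) : Prop where
  closed₁ : IsClosed C₁
  closed₂ : IsClosed C₂
  closed₃ : IsClosed C₃
  conn₁ : IsPreconnected C₁
  conn₂ : IsPreconnected C₂
  conn₃ : IsPreconnected C₃
  x₁ : x ∈ C₁
  y₁ : y ∈ C₁
  z₁ : z ∉ C₁
  y₂ : y ∈ C₂
  z₂ : z ∈ C₂
  x₂ : x ∉ C₂
  x₃ : x ∈ C₃
  z₃ : z ∈ C₃
  y₃ : y ∉ C₃

theorem nice_no_triod [CompactSpace L] (hF : IsFan v) (hS : IsSmooth v) {ε : ℕ → ℝ}
    [T2Space (Quotient (decomposition a b h))] (hN : Nice v a b ε)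
    {C₁ C₂ C₃ : Set (Quotient (decomposition a b h))} {x y z : Quotient (decomposition a b h)}
    (hC : TriodLike C₁ C₂ C₃ x y z) :
    Quotient.mk (decomposition a b h) v ∈ C₁ ∪ C₂ ∪ C₃ := by
  by_contra hv
  have hTc : IsClosed (C₁ ∪ C₂ ∪ C₃) := (hC.closed₁.union hC.closed₂).union hC.closed₃
  have hTp : IsPreconnected (C₁ ∪ C₂ ∪ C₃) :=
    (hC.conn₁.union y hC.y₁ hC.y₂ hC.conn₂).union x (Or.inl hC.x₁) hC.x₃ hC.conn₃
  obtain ⟨c, hc1, hc2, hc3⟩ := exists_coord h hF hS hN hTc hTp hv ⟨x, Or.inl (Or.inl hC.x₁)⟩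
  obtain ⟨x, rfl⟩ := Quotient.exists_rep x
  obtain ⟨y, rfl⟩ := Quotient.exists_rep y
  obtain ⟨z, rfl⟩ := Quotient.exists_rep z
  have hx : Quotient.mk (decomposition a b h) x ∈ C₁ ∪ C₂ ∪ C₃ := Or.inl (Or.inl hC.x₁)
  have hy : Quotient.mk (decomposition a b h) y ∈ C₁ ∪ C₂ ∪ C₃ := Or.inl (Or.inl hC.y₁)
  have hz : Quotient.mk (decomposition a b h) z ∈ C₁ ∪ C₂ ∪ C₃ := Or.inl (Or.inr hC.z₂)
  have mid : ∀ (C : Set (Quotient (decomposition a b h))), IsClosed C → IsPreconnected C →
      C ⊆ C₁ ∪ C₂ ∪ C₃ → ∀ p m r : L, Quotient.mk (decomposition a b h) p ∈ C →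
      Quotient.mk (decomposition a b h) r ∈ C → Quotient.mk (decomposition a b h) m ∉ C →
      Quotient.mk (decomposition a b h) m ∈ C₁ ∪ C₂ ∪ C₃ → c p ≤ c m → c m ≤ c r → False := by
    intro C hCc hCp hCT p m r hp hr hm hmT h1 h2
    obtain ⟨u, ⟨huT, hu⟩, u', ⟨huT', hu'⟩, huC, hrel⟩ := separation h hCc hCp (hc1 (c m))
      (hc2 (c m))
      (fun u hu => by
        rcases le_total (c u) (c m) with h3 | h3
        · left; exact ⟨hCT hu, h3⟩
        · right; exact ⟨hCT hu, h3⟩)
      ⟨p, ⟨hCT hp, h1⟩, hp⟩ ⟨r, ⟨hCT hr, h2⟩, hr⟩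
    have h3 : c u = c u' := (hc3 u u' huT huT').mpr hrel
    have h4 : c u = c m := le_antisymm hu (by rw [h3]; exact hu')
    have h5 := (hc3 u m huT hmT).mp h4
    apply hm
    rw [← (Quotient.sound h5 : Quotient.mk (decomposition a b h) u = _)]
    exact huC
  have s1 : C₁ ⊆ C₁ ∪ C₂ ∪ C₃ := fun _ hu => Or.inl (Or.inl hu)
  have s2 : C₂ ⊆ C₁ ∪ C₂ ∪ C₃ := fun _ hu => Or.inl (Or.inr hu)
  have s3 : C₃ ⊆ C₁ ∪ C₂ ∪ C₃ := fun _ hu => Or.inr hu
  rcases le_total (c x) (c y) with hxy | hxy <;> rcases le_total (c y) (c z) with hyz | hyz <;>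
    rcases le_total (c x) (c z) with hxz | hxz
  · exact mid C₃ hC.closed₃ hC.conn₃ s3 x y z hC.x₃ hC.z₃ hC.y₃ hy hxy hyz
  · exact mid C₃ hC.closed₃ hC.conn₃ s3 x y z hC.x₃ hC.z₃ hC.y₃ hy hxy hyz
  · exact mid C₁ hC.closed₁ hC.conn₁ s1 x z y hC.x₁ hC.y₁ hC.z₁ hz hxz hyz
  · exact mid C₂ hC.closed₂ hC.conn₂ s2 z x y hC.z₂ hC.y₂ hC.x₂ hx hxz hxy
  · exact mid C₂ hC.closed₂ hC.conn₂ s2 y x z hC.y₂ hC.z₂ hC.x₂ hx hxy hxz
  · exact mid C₁ hC.closed₁ hC.conn₁ s1 y z x hC.y₁ hC.x₁ hC.z₁ hz hyz hxz
  · exact mid C₃ hC.closed₃ hC.conn₃ s3 z y x hC.z₃ hC.x₃ hC.y₃ hy hyz hxy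
  · exact mid C₃ hC.closed₃ hC.conn₃ s3 z y x hC.z₃ hC.x₃ hC.y₃ hy hyz hxy

end Quot

end Fan



/-! ### The Cantor space -/

section Cantor

/-- prepend a finite word -/
def cat (w : List Bool) (x : ℕ → Bool) : ℕ → Bool :=
  fun n => if h : n < w.length then w[n] else x (n - w.length)

theorem cat_lt {w : List Bool} {x : ℕ → Bool} {n : ℕ} (h : n < w.length) : cat w x n = w[n] := by
  simp [cat, h]

theorem cat_add (w : List Bool) (x : ℕ → Bool) (k : ℕ) : cat w x (w.length + k) = x k := by
  simp [cat]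

theorem cat_continuous (w : List Bool) : Continuous (cat w) := by
  apply continuous_pi
  intro n
  by_cases h : n < w.length
  · have : (fun x => cat w x n) = fun _ => w[n] := by
      funext x; exact cat_lt h
    rw [this]; exact continuous_const
  · have : (fun x => cat w x n) = fun x : ℕ → Bool => x (n - w.length) := by
      funext x; simp [cat, h]
    rw [this]; exact continuous_apply _

theorem cat_injective (w : List Bool) : Function.Injective (cat w) := by
  intro x y hxy
  funext k
  have := congrFun hxy (w.length + k)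
  rwa [cat_add, cat_add] at this

theorem cat_append (u w : List Bool) (x : ℕ → Bool) : cat (u ++ w) x = cat u (cat w x) := by
  funext n
  by_cases h1 : n < u.length
  · rw [cat_lt (by rw [List.length_append]; omega), cat_lt h1, List.getElem_append_left h1]
  · obtain ⟨k, rfl⟩ := Nat.exists_eq_add_of_le (not_lt.mp h1)
    rw [cat_add]
    by_cases h2 : k < w.length
    · rw [cat_lt (by rw [List.length_append]; omega), cat_lt h2,
        List.getElem_append_right (by omega)]
      simp
    · obtain ⟨l, rfl⟩ := Nat.exists_eq_add_of_le (not_lt.mp h2)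
      rw [cat_add]
      have : u.length + (w.length + l) = (u ++ w).length + l := by
        rw [List.length_append]; omega
      rw [this, cat_add]

/-- the sequence `w 0 1 1 1 …` -/
def lo (w : List Bool) : ℕ → Bool := cat w (cat [false] (fun _ => true))

/-- the sequence `w 1 0 0 0 …` -/
def hi (w : List Bool) : ℕ → Bool := cat w (cat [true] (fun _ => false))

theorem lo_at (w : List Bool) : lo w w.length = false := by
  have := cat_add w (cat [false] (fun _ => true)) 0
  rw [add_zero] at this
  rw [lo, this]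
  rfl

theorem hi_at (w : List Bool) : hi w w.length = true := by
  have := cat_add w (cat [true] (fun _ => false)) 0
  rw [add_zero] at this
  rw [hi, this]
  rfl

theorem lo_tail (w : List Bool) (k : ℕ) : lo w (w.length + (1 + k)) = true := by
  rw [lo, cat_add]
  exact cat_add [false] (fun _ => true) k

theorem hi_tail (w : List Bool) (k : ℕ) : hi w (w.length + (1 + k)) = false := by
  rw [hi, cat_add]
  exact cat_add [true] (fun _ => false) k

theorem lo_injective : Function.Injective lo := by
  have key : ∀ u w : List Bool, u.length < w.length → lo u ≠ lo w := by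
    intro u w h heq
    have h1 := lo_at w
    rw [← heq] at h1
    obtain ⟨k, hk⟩ := Nat.exists_eq_add_of_le (Nat.succ_le_of_lt h)
    have h2 := lo_tail u k
    have h3 : u.length + (1 + k) = w.length := by rw [hk]; omega
    rw [h3, h1] at h2
    exact Bool.false_ne_true h2
  intro u w heq
  rcases lt_trichotomy u.length w.length with h | h | h
  · exact absurd heq (key u w h)
  · apply List.ext_getElem h
    intro n h1 h2
    have := congrFun heq n
    rwa [lo, lo, cat_lt h1, cat_lt h2] at this
  · exact absurd heq.symm (key w u h)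

theorem hi_injective : Function.Injective hi := by
  have key : ∀ u w : List Bool, u.length < w.length → hi u ≠ hi w := by
    intro u w h heq
    have h1 := hi_at w
    rw [← heq] at h1
    obtain ⟨k, hk⟩ := Nat.exists_eq_add_of_le (Nat.succ_le_of_lt h)
    have h2 := hi_tail u k
    have h3 : u.length + (1 + k) = w.length := by rw [hk]; omega
    rw [h3, h1] at h2
    exact Bool.false_ne_true h2.symm
  intro u w heq
  rcases lt_trichotomy u.length w.length with h | h | h
  · exact absurd heq (key u w h)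
  · apply List.ext_getElem h
    intro n h1 h2
    have := congrFun heq n
    rwa [hi, hi, cat_lt h1, cat_lt h2] at this
  · exact absurd heq.symm (key w u h)

theorem lo_ne_hi (u w : List Bool) : lo u ≠ hi w := by
  intro heq
  have h1 := lo_tail u w.length
  have h2 := hi_tail w u.length
  rw [← heq] at h2
  have : w.length + (1 + u.length) = u.length + (1 + w.length) := by omega
  rw [this, h1] at h2
  exact Bool.false_ne_true h2.symm

/-- a sequence that is not eventually constant -/
def alt : ℕ → Bool := fun n => decide (n % 2 = 0)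

theorem cat_alt_ne_lo (w u : List Bool) : cat w alt ≠ lo u := by
  intro heq
  have h1 : ∀ k, alt (u.length + 1 + k) = true := by
    intro k
    have h2 := congrFun heq (w.length + (u.length + 1 + k))
    rw [cat_add] at h2
    have h3 : w.length + (u.length + 1 + k) = u.length + (1 + (w.length + k)) := by omega
    rw [h3, lo_tail] at h2
    exact h2
  have h2 := h1 0
  have h3 := h1 1
  simp only [alt, decide_eq_true_eq] at h2 h3
  omega

theorem cat_alt_ne_hi (w u : List Bool) : cat w alt ≠ hi u := by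
  intro heq
  have h1 : ∀ k, alt (u.length + 1 + k) = false := by
    intro k
    have h2 := congrFun heq (w.length + (u.length + 1 + k))
    rw [cat_add] at h2
    have h3 : w.length + (u.length + 1 + k) = u.length + (1 + (w.length + k)) := by omega
    rw [h3, hi_tail] at h2
    exact h2
  have h2 := h1 0
  have h3 := h1 1
  simp only [alt, decide_eq_false_iff_not] at h2 h3
  omega

theorem cat_eq_of_agree (x : ℕ → Bool) (n : ℕ) :
    x = cat ((List.range n).map x) (fun k => x (n + k)) := by
  funext m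
  by_cases h : m < n
  · rw [cat_lt (by simpa using h)]
    simp
  · obtain ⟨k, rfl⟩ := Nat.exists_eq_add_of_le (not_lt.mp h)
    have := cat_add ((List.range n).map x) (fun k => x (n + k)) k
    simp only [List.length_map, List.length_range] at this
    rw [this]

/-- A clopen subset of the Cantor space which is compatible with the gluing of `lo w` to `hi w`
is trivial. -/
theorem clopen_trivial (P : (ℕ → Bool) → Prop) (h1 : IsClosed {x | P x}) (h2 : IsClosed {x | ¬ P x})
    (hP : ∀ w, P (lo w) ↔ P (hi w)) (x y : ℕ → Bool) : P x ↔ P y := by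
  -- dependence on finitely many coordinates
  have hfin : ∃ n : ℕ, ∀ x y : ℕ → Bool, (∀ i < n, x i = y i) → P x → P y := by
    by_contra hcon
    push Not at hcon
    choose x y hxy hx hy using hcon
    obtain ⟨z, φ, hφ, hlim⟩ := CompactSpace.tendsto_subseq x
    have hlim' : Tendsto (y ∘ φ) atTop (𝓝 z) := by
      rw [tendsto_pi_nhds] at hlim ⊢
      intro i
      apply (hlim i).congr'
      filter_upwards [eventually_gt_atTop i] with n hn
      exact hxy (φ n) i (lt_of_lt_of_le hn (hφ.id_le n))
    have e1 : P z := h1.mem_of_tendsto hlim (Eventually.of_forall fun n => hx _)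
    have e2 : ¬ P z := h2.mem_of_tendsto hlim' (Eventually.of_forall fun n => hy _)
    exact e2 e1
  obtain ⟨n, hn⟩ := hfin
  have hdown : ∀ k ≤ n, ∀ x y : ℕ → Bool, (∀ i < n - k, x i = y i) → P x → P y := by
    intro k
    induction k with
    | zero => intro _; simpa using hn
    | succ k ih =>
      intro hk x y hxy hx
      have ih' := ih (by omega)
      have hkk : n - k = (n - (k + 1)) + 1 := by omega
      by_cases hbit : x (n - (k + 1)) = y (n - (k + 1))
      · apply ih' x y _ hx
        intro i hi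
        rw [hkk] at hi
        rcases Nat.lt_succ_iff_lt_or_eq.mp hi with h | h
        · exact hxy i h
        · rw [h]; exact hbit
      · set m := n - (k + 1) with hm
        set w : List Bool := (List.range m).map x with hw
        have hwlen : w.length = m := by simp [hw]
        have hwget : ∀ i (hi : i < m), w[i]'(by rw [hwlen]; exact hi) = x i := by
          intro i hi; simp [hw]
        have hlo : ∀ i < m, lo w i = x i := by
          intro i hi
          rw [lo, cat_lt (by rw [hwlen]; exact hi)]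
          exact hwget i hi
        have hhi : ∀ i < m, hi w i = x i := by
          intro i hi'
          rw [hi, cat_lt (by rw [hwlen]; exact hi')]
          exact hwget i hi'
        have hlom : lo w m = false := by rw [← hwlen]; exact lo_at w
        have hhim : hi w m = true := by rw [← hwlen]; exact hi_at w
        rcases Bool.eq_false_or_eq_true (x m) with hxm | hxm
        · -- x m = true
          have hym : y m = false := by
            rcases Bool.eq_false_or_eq_true (y m) with h | h
            · exact absurd (hxm.trans h.symm) hbit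
            · exact h
          have s1 : P (hi w) := by
            apply ih' x (hi w) _ hx
            intro i hi'
            rw [hkk] at hi'
            rcases Nat.lt_succ_iff_lt_or_eq.mp hi' with h | h
            · exact (hhi i h).symm
            · rw [h, hhim, hxm]
          have s2 : P (lo w) := (hP w).mpr s1
          apply ih' (lo w) y _ s2
          intro i hi'
          rw [hkk] at hi'
          rcases Nat.lt_succ_iff_lt_or_eq.mp hi' with h | h
          · rw [hlo i h]; exact hxy i h
          · rw [h, hlom, hym]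
        · have hym : y m = true := by
            rcases Bool.eq_false_or_eq_true (y m) with h | h
            · exact h
            · exact absurd (hxm.trans h.symm) hbit
          have s1 : P (lo w) := by
            apply ih' x (lo w) _ hx
            intro i hi'
            rw [hkk] at hi'
            rcases Nat.lt_succ_iff_lt_or_eq.mp hi' with h | h
            · exact (hlo i h).symm
            · rw [h, hlom, hxm]
          have s2 : P (hi w) := (hP w).mp s1
          apply ih' (hi w) y _ s2
          intro i hi'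
          rw [hkk] at hi'
          rcases Nat.lt_succ_iff_lt_or_eq.mp hi' with h | h
          · rw [hhi i h]; exact hxy i h
          · rw [h, hhim, hym]
  constructor
  · exact hdown n le_rfl x y (fun i hi => by omega)
  · exact hdown n le_rfl y x (fun i hi => by omega)

theorem preconnected_range {X : Type*} [TopologicalSpace X] (g : (ℕ → Bool) → X)
    (hg : Continuous g) (hglue : ∀ w, g (lo w) = g (hi w)) : IsPreconnected (range g) := by
  rw [isPreconnected_closed_iff]
  rintro t t' ht ht' hcov ⟨_, ⟨x, rfl⟩, hx⟩ ⟨_, ⟨y, rfl⟩, hy⟩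
  by_contra hcon
  have hdisj : ∀ z, g z ∈ t → g z ∉ t' := fun z hz hz' => hcon ⟨g z, ⟨z, rfl⟩, hz, hz'⟩
  have h1 : IsClosed {z | g z ∈ t} := ht.preimage hg
  have h2 : IsClosed {z | ¬ (g z ∈ t)} := by
    have : {z | ¬ (g z ∈ t)} = g ⁻¹' t' := by
      ext z
      constructor
      · intro hz
        rcases hcov ⟨z, rfl⟩ with h | h
        · exact absurd h hz
        · exact h
      · intro hz hz'
        exact hdisj z hz' hz
    rw [this]
    exact ht'.preimage hg
  have := (clopen_trivial (fun z => g z ∈ t) h1 h2 (fun w => by rw [hglue w]) x y).mp hx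
  exact hdisj y this hy

/-- image of a cylinder -/
theorem preconnected_cylinder {X : Type*} [TopologicalSpace X] (g : (ℕ → Bool) → X)
    (hg : Continuous g) (hglue : ∀ w, g (lo w) = g (hi w)) (u : List Bool) :
    IsPreconnected (range (g ∘ cat u)) := by
  apply preconnected_range
  · exact hg.comp (cat_continuous u)
  · intro w
    have h1 : cat u (lo w) = lo (u ++ w) := by rw [lo, lo, cat_append]
    have h2 : cat u (hi w) = hi (u ++ w) := by rw [hi, hi, cat_append]
    simp only [Function.comp]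
    rw [h1, h2]
    exact hglue _

/-- The gaps are null. -/
theorem gaps_null {Y : Type*} [MetricSpace Y] (f : (ℕ → Bool) → Y) (hf : Continuous f) {ε : ℝ}
    (hε : 0 < ε) : {w : List Bool | ε ≤ dist (f (lo w)) (f (hi w))}.Finite := by
  have hN : ∃ N : ℕ, ∀ w : List Bool, N ≤ w.length → dist (f (lo w)) (f (hi w)) < ε := by
    by_contra hcon
    push Not at hcon
    choose w hw1 hw2 using hcon
    obtain ⟨z, φ, hφ, hlim⟩ := CompactSpace.tendsto_subseq (fun n => lo (w n))
    have hlim' : Tendsto (fun n => hi (w (φ n))) atTop (𝓝 z) := by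
      rw [tendsto_pi_nhds] at hlim ⊢
      intro i
      apply (hlim i).congr'
      filter_upwards [eventually_gt_atTop i] with n hn
      have h1 : i < (w (φ n)).length := lt_of_lt_of_le (lt_of_lt_of_le hn (hφ.id_le n)) (hw1 _)
      show lo (w (φ n)) i = hi (w (φ n)) i
      rw [lo, hi, cat_lt h1, cat_lt h1]
    have h1 : Tendsto (fun n => f (lo (w (φ n)))) atTop (𝓝 (f z)) := (hf.tendsto z).comp hlim
    have h2 : Tendsto (fun n => f (hi (w (φ n)))) atTop (𝓝 (f z)) := (hf.tendsto z).comp hlim'
    have h3 := h1.dist h2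
    rw [dist_self] at h3
    have h4 : ε ≤ 0 := ge_of_tendsto' h3 (fun n => hw2 _)
    linarith
  obtain ⟨N, hN⟩ := hN
  apply (List.finite_length_lt Bool N).subset
  intro w hw
  by_contra hlt
  have : N ≤ w.length := not_lt.mp hlt
  have h1 := hN w this
  have h2 : ε ≤ dist (f (lo w)) (f (hi w)) := hw
  linarith

end Cantor


/-! ### A Cantor set of end points -/

section CantorEnds
variable {v : L}

theorem dense_compl_Ends (hF : IsFan v) : Dense (Ends v)ᶜ := by
  intro x
  by_cases hx : x ∈ Ends v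
  · have hxv : x ≠ v := fun hc => top_notMem_Ends hF (hc ▸ hx)
    obtain ⟨γ, hγ, hinj, h0, h1, hseg, hr⟩ := exists_param hF hxv
    have hlt : ∀ n : ℕ, (1 : ℝ) / ((n : ℝ) + 1 + 1) ∈ Icc (0 : ℝ) 1 := by
      intro n
      constructor
      · positivity
      · rw [div_le_one (by positivity)]
        linarith [(Nat.cast_nonneg n : (0 : ℝ) ≤ n)]
    let t : ℕ → unitInterval := fun n => unitInterval.symm ⟨_, hlt n⟩
    have ht : Tendsto t atTop (𝓝 1) := by
      have h2 : Tendsto (fun n : ℕ => (⟨_, hlt n⟩ : unitInterval)) atTop (𝓝 0) := by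
        rw [tendsto_subtype_rng]
        have h3 : Tendsto (fun n : ℕ => 1 / ((n : ℝ) + 1)) atTop (𝓝 0) :=
          tendsto_one_div_add_atTop_nhds_zero_nat
        have h4 := h3.comp (tendsto_add_atTop_nat 1)
        refine h4.congr (fun n => ?_)
        simp
      have h5 := (unitInterval.continuous_symm.tendsto 0).comp h2
      rw [unitInterval.symm_zero] at h5
      exact h5
    have hlim : Tendsto (fun n => γ (t n)) atTop (𝓝 x) := by
      have := (hγ.tendsto 1).comp ht
      rw [h1] at this
      exact this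
    apply mem_closure_of_tendsto hlim
    refine Eventually.of_forall fun n hn => ?_
    have h2 : γ (t n) ∈ seg v x := by rw [hr]; exact ⟨_, rfl⟩
    have h3 := hn x h2
    rw [← h1] at h3
    have h4 := hinj h3
    have h5 : (t n : ℝ) = 1 - 1 / ((n : ℝ) + 1 + 1) := rfl
    rw [← h4] at h5
    have h6 : (0 : ℝ) < 1 / ((n : ℝ) + 1 + 1) := by positivity
    have h7 : ((1 : unitInterval) : ℝ) = 1 := rfl
    rw [h7] at h5
    linarith
  · exact subset_closure hx

theorem not_countable_Ends [CompactSpace L] [ConnectedSpace L] (hL : IsLelekFan v) :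
    ¬ (Ends v).Countable := by
  intro hc
  obtain ⟨x0, hx0⟩ := exists_ne_top hL.fan
  have : Nontrivial L := ⟨⟨x0, v, hx0⟩⟩
  have := hc.to_subtype
  have h1 := (isGδ_Ends hL).dense_iUnion_interior_of_closed (dense_Ends hL)
    (f := fun x : Ends v => {(x : L)}) (fun _ => isClosed_singleton) (by
      intro x hx
      exact mem_iUnion.mpr ⟨⟨x, hx⟩, rfl⟩)
  obtain ⟨y, hy⟩ := h1.nonempty
  obtain ⟨x, hx⟩ := mem_iUnion.mp hy
  rw [interior_singleton] at hx
  exact hx

theorem exists_cantor [CompactSpace L] [ConnectedSpace L] (hL : IsLelekFan v) :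
    ∃ f : (ℕ → Bool) → L, Continuous f ∧ Function.Injective f ∧ ∀ x, f x ∈ Ends v := by
  borelize L
  have hm : MeasurableSet (Ends v) := (isGδ_Ends hL).measurableSet
  obtain ⟨t', ht', hp, hcl, _⟩ := hm.isClopenable
  obtain ⟨f, hf1, hf2, hf3⟩ :=
    @IsClosed.exists_nat_bool_injection_of_not_countable L t' hp _ hcl (not_countable_Ends hL)
  refine ⟨f, ?_, hf3, fun x => hf1 ⟨x, rfl⟩⟩
  exact continuous_le_rng ht' hf2

/-- The second pairing. -/
theorem exists_second [CompactSpace L] [ConnectedSpace L] (hL : IsLelekFan v) :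
    ∃ (f : (ℕ → Bool) → L) (a b : ℕ → L), Continuous f ∧ Function.Injective f ∧
      (∀ x, f x ∈ Ends v) ∧ IsPairing a b ∧ (∀ n, a n ∈ Ends v ∧ b n ∈ Ends v) ∧
      Tendsto (fun n => dist (a n) (b n)) atTop (𝓝 0) ∧
      (∀ w, ∃ n, a n = f (lo w) ∧ b n = f (hi w)) ∧
      (∀ x n, f x = a n → ∃ w, x = lo w ∧ b n = f (hi w)) ∧
      (∀ x n, f x = b n → ∃ w, x = hi w ∧ a n = f (lo w)) := by
  obtain ⟨f, hf, hfi, hfE⟩ := exists_cantor hL
  have hKc : IsClosed (range f) := (isCompact_range hf).isClosed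
  have hKd : Dense (range f)ᶜ := by
    apply (dense_compl_Ends hL.fan).mono
    apply compl_subset_compl.mpr
    rintro _ ⟨x, rfl⟩
    exact hfE x
  obtain ⟨G, hGo, hGne, hGb⟩ := exists_base (L := L)
  obtain ⟨a0, b0, hab, hainj, hbinj, hne, hdist⟩ := exists_selection hL hKc hKd
    (fun l => 1 / ((l.length : ℝ) + 1)) (fun l => by positivity) G hGo hGne
  have hnull0 : Tendsto (fun n => dist (a0 n) (b0 n)) atTop (𝓝 0) := by
    apply squeeze_zero (fun n => dist_nonneg) (g := fun n : ℕ => 1 / ((n : ℝ) + 1))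
    · intro n
      have := hdist n
      simp only [List.length_reverse, List.length_map, List.length_range] at this
      exact this.le
    · exact tendsto_one_div_add_atTop_nhds_zero_nat
  obtain ⟨hden⟩ := nonempty_denumerable (ℕ ⊕ List Bool)
  let e : ℕ ≃ ℕ ⊕ List Bool := (Denumerable.eqv (ℕ ⊕ List Bool)).symm
  let A : ℕ ⊕ List Bool → L := Sum.elim a0 (fun w => f (lo w))
  let B : ℕ ⊕ List Bool → L := Sum.elim b0 (fun w => f (hi w))
  have hAi : Function.Injective A := by
    apply hainj.sumElim (hfi.comp lo_injective)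
    intro n w hnw
    exact (hab n).2.2.2.2.1 ⟨_, hnw.symm⟩
  have hBi : Function.Injective B := by
    apply hbinj.sumElim (hfi.comp hi_injective)
    intro n w hnw
    exact (hab n).2.2.2.2.2 ⟨_, hnw.symm⟩
  have hAE : ∀ s, A s ∈ Ends v := by
    rintro (n | w)
    · exact (hab n).2.2.1
    · exact hfE _
  have hBE : ∀ s, B s ∈ Ends v := by
    rintro (n | w)
    · exact (hab n).2.2.2.1
    · exact hfE _
  have hAB : ∀ s s', A s ≠ B s' := by
    rintro (n | w) (m | u)
    · exact hne n m
    · intro hc; exact (hab n).2.2.2.2.1 ⟨_, hc.symm⟩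
    · intro hc; exact (hab m).2.2.2.2.2 ⟨_, hc⟩
    · intro hc; exact lo_ne_hi w u (hfi hc)
  refine ⟨f, fun n => A (e n), fun n => B (e n), hf, hfi, hfE, ?_, fun n => ⟨hAE _, hBE _⟩, ?_,
    ?_, ?_, ?_⟩
  · refine ⟨fun i => isEndpoint_of_mem_Ends hL.fan (hAE _),
      fun i => isEndpoint_of_mem_Ends hL.fan (hBE _), hAi.comp e.injective,
      hBi.comp e.injective, fun i j => hAB _ _, ?_, ?_⟩
    · rw [dense_iff_inter_open]
      intro U hU hUne
      obtain ⟨n, hn⟩ := hGb U hU hUne
      refine ⟨a0 n, hn (hab n).1, e.symm (Sum.inl n), ?_⟩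
      simp [A]
    · rw [dense_iff_inter_open]
      intro U hU hUne
      obtain ⟨n, hn⟩ := hGb U hU hUne
      refine ⟨b0 n, hn (hab n).2.1, e.symm (Sum.inl n), ?_⟩
      simp [B]
  · rw [Metric.tendsto_nhds]
    intro ε hε
    rw [← Nat.cofinite_eq_atTop, Filter.eventually_cofinite]
    have h1 : {s : ℕ ⊕ List Bool | ε ≤ dist (A s) (B s)}.Finite := by
      have h2 : {n : ℕ | ε ≤ dist (a0 n) (b0 n)}.Finite := by
        have h3 := (Metric.tendsto_nhds.mp hnull0) ε hε
        rw [← Nat.cofinite_eq_atTop, Filter.eventually_cofinite] at h3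
        apply h3.subset
        intro n hn
        simp only [mem_ofPred_eq, Real.dist_eq, sub_zero, abs_of_nonneg dist_nonneg, not_lt]
        exact hn
      have h4 := gaps_null f hf hε
      apply ((h2.image Sum.inl).union (h4.image Sum.inr)).subset
      rintro (n | w) hs
      · left; exact ⟨n, hs, rfl⟩
      · right; exact ⟨w, hs, rfl⟩
    apply (h1.preimage (f := e) e.injective.injOn).subset
    intro n hn
    simp only [mem_ofPred_eq, Real.dist_eq, sub_zero, abs_of_nonneg dist_nonneg, not_lt] at hn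
    exact hn
  · intro w
    refine ⟨e.symm (Sum.inr w), ?_, ?_⟩
    · simp [A]
    · simp [B]
  · intro x n hx
    rcases hs : e n with m | w
    · exfalso
      simp only [hs] at hx
      exact (hab m).2.2.2.2.1 ⟨x, hx⟩
    · simp only [hs] at hx ⊢
      exact ⟨w, hfi hx, rfl⟩
  · intro x n hx
    rcases hs : e n with m | w
    · exfalso
      simp only [hs] at hx
      exact (hab m).2.2.2.2.2 ⟨x, hx⟩
    · simp only [hs] at hx ⊢
      exact ⟨w, hfi hx, rfl⟩

end CantorEnds

/-! ### The triods -/

section Triods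
variable {v : L} {a b : ℕ → L} (h : IsPairing a b)

/-- An end point which is equivalent to a point is related to an end point. -/
theorem end_of_rel (hE : ∀ n, a n ∈ Ends v ∧ b n ∈ Ends v) {p r : L} (hr : r ∈ Ends v)
    (hpr : decomposition a b h p r) : p ∈ Ends v := by
  rcases (rel_iff h).mp hpr with h1 | ⟨i, ⟨h1, _⟩ | ⟨h1, _⟩⟩
  · rw [h1]; exact hr
  · rw [h1]; exact (hE i).1
  · rw [h1]; exact (hE i).2

/-- The Cantor set is glued along its gaps. -/
structure Glue (v : L) (a b : ℕ → L) (f : (ℕ → Bool) → L) : Prop where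
  cont : Continuous f
  inj : Function.Injective f
  ends : ∀ x, f x ∈ Ends v
  pair_ends : ∀ n, a n ∈ Ends v ∧ b n ∈ Ends v
  glue : ∀ w, ∃ n, a n = f (lo w) ∧ b n = f (hi w)
  left : ∀ x n, f x = a n → ∃ w, x = lo w ∧ b n = f (hi w)
  right : ∀ x n, f x = b n → ∃ w, x = hi w ∧ a n = f (lo w)

theorem Glue.rel {f : (ℕ → Bool) → L} (hG : Glue v a b f) {x y : ℕ → Bool}
    (hxy : decomposition a b h (f x) (f y)) :
    x = y ∨ ∃ w, (x = lo w ∧ y = hi w) ∨ (x = hi w ∧ y = lo w) := by
  rcases (rel_iff h).mp hxy with h1 | ⟨i, ⟨h1, h2⟩ | ⟨h1, h2⟩⟩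
  · left; exact hG.inj h1
  · obtain ⟨w, hw1, hw2⟩ := hG.left x i h1
    right
    exact ⟨w, Or.inl ⟨hw1, hG.inj (h2.trans hw2)⟩⟩
  · obtain ⟨w, hw1, hw2⟩ := hG.right x i h1
    right
    exact ⟨w, Or.inr ⟨hw1, hG.inj (h2.trans hw2)⟩⟩

theorem cat_snoc_ne (w : List Bool) (x y : ℕ → Bool) : cat (w ++ [false]) x ≠ cat (w ++ [true]) y := by
  intro heq
  have h1 := congrFun heq w.length
  have e1 : cat (w ++ [false]) x w.length = false := by
    rw [cat_lt (by simp)]; simp
  have e2 : cat (w ++ [true]) y w.length = true := by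
    rw [cat_lt (by simp)]; simp
  rw [e1, e2] at h1
  exact Bool.false_ne_true h1

theorem lo_eq_cat (w : List Bool) : lo w = cat (w ++ [false]) (fun _ => true) := by
  rw [lo, cat_append]

theorem hi_eq_cat (w : List Bool) : hi w = cat (w ++ [true]) (fun _ => false) := by
  rw [hi, cat_append]

/-- The sets of a triod. -/
def piece (f : (ℕ → Bool) → L) (w : List Bool) : Set (Quotient (decomposition a b h)) :=
  range ((Quotient.mk (decomposition a b h) ∘ f) ∘ cat w)

theorem exists_triod [CompactSpace L] (hF : IsFan v) [T2Space (Quotient (decomposition a b h))]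
    {f : (ℕ → Bool) → L} (hG : Glue v a b f) (w : List Bool) :
    ∃ (S : Set L) (x y z : Quotient (decomposition a b h)),
      (∀ p ∈ S, p ≠ v ∧ p ∈ seg v (f (lo w))) ∧
      TriodLike (piece h f w) (piece h f (w ++ [true]) ∪ Quotient.mk (decomposition a b h) '' S)
        (piece h f (w ++ [false]) ∪ Quotient.mk (decomposition a b h) '' S) x y z := by
  have hq : Continuous (Quotient.mk (decomposition a b h)) := continuous_quotient_mk'
  have hg : Continuous (Quotient.mk (decomposition a b h) ∘ f) := hq.comp hG.cont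
  have hglue : ∀ w, (Quotient.mk (decomposition a b h) ∘ f) (lo w) =
      (Quotient.mk (decomposition a b h) ∘ f) (hi w) := by
    intro w
    obtain ⟨n, h1, h2⟩ := hG.glue w
    exact Quotient.sound (Or.inr ⟨n, Or.inl ⟨h1.symm, h2.symm⟩⟩)
  have hclosed : ∀ u, IsClosed (piece h f u) := fun u =>
    (isCompact_range (hg.comp (cat_continuous u))).isClosed
  have hconn : ∀ u, IsPreconnected (piece h f u) := fun u =>
    preconnected_cylinder _ hg hglue u
  have hcv : f (lo w) ≠ v := fun hc => top_notMem_Ends hF (hc ▸ hG.ends _)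
  obtain ⟨γ, hγ, hinj, h0, h1, hseg, hr⟩ := exists_param hF hcv
  let t0 : unitInterval := ⟨1 / 2, by norm_num, by norm_num⟩
  have ht0 : (0 : unitInterval) < t0 := by
    rw [← Subtype.coe_lt_coe]
    show (0 : ℝ) < 1 / 2
    norm_num
  have ht1 : t0 < (1 : unitInterval) := by
    rw [← Subtype.coe_lt_coe]
    show (1 / 2 : ℝ) < 1
    norm_num
  let S : Set L := γ '' Icc t0 1
  have hS : ∀ p ∈ S, p ≠ v ∧ p ∈ seg v (f (lo w)) := by
    rintro _ ⟨t, ht, rfl⟩
    refine ⟨?_, by rw [hr]; exact ⟨t, rfl⟩⟩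
    intro hc
    rw [← h0] at hc
    have := hinj hc
    rw [this] at ht
    exact absurd ht.1 (not_le.mpr ht0)
  have hSend : ∀ p ∈ S, p ∈ Ends v → p = f (lo w) := fun p hp hpE => (hpE _ (hS p hp).2).symm
  have hScl : IsClosed (Quotient.mk (decomposition a b h) '' S) :=
    ((isCompact_Icc.image hγ).image hq).isClosed
  have hScon : IsPreconnected (Quotient.mk (decomposition a b h) '' S) :=
    (isPreconnected_Icc.image _ hγ.continuousOn).image _ hq.continuousOn
  have hS1 : f (lo w) ∈ S := ⟨1, ⟨ht1.le, le_rfl⟩, h1⟩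
  have hS0 : γ t0 ∈ S := ⟨t0, ⟨le_rfl, ht1.le⟩, rfl⟩
  have hnotend : γ t0 ∉ Ends v := by
    intro hc
    have h2 := hSend _ hS0 hc
    rw [← h1] at h2
    exact absurd (hinj h2) ht1.ne
  have hmemlo : (Quotient.mk (decomposition a b h)) (f (lo w)) ∈ piece h f (w ++ [false]) :=
    ⟨fun _ => true, by rw [Function.comp, Function.comp, ← lo_eq_cat]⟩
  have hmemhi : (Quotient.mk (decomposition a b h)) (f (lo w)) ∈ piece h f (w ++ [true]) := by
    refine ⟨fun _ => false, ?_⟩
    rw [Function.comp, ← hi_eq_cat, ← hglue w]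
    rfl
  have hmemS : (Quotient.mk (decomposition a b h)) (f (lo w)) ∈
      Quotient.mk (decomposition a b h) '' S := ⟨_, hS1, rfl⟩
  -- membership of a point of the Cantor set which is not an end of a gap
  have hfree : ∀ x : ℕ → Bool, (∀ u, x ≠ lo u) → (∀ u, x ≠ hi u) → ∀ y,
      decomposition a b h (f x) (f y) → x = y := by
    intro x hx1 hx2 y hxy
    rcases hG.rel h hxy with h2 | ⟨u, ⟨h2, _⟩ | ⟨h2, _⟩⟩
    · exact h2
    · exact absurd h2 (hx1 u)
    · exact absurd h2 (hx2 u)
  have hfreeS : ∀ x : ℕ → Bool, (∀ u, x ≠ lo u) → (∀ u, x ≠ hi u) →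
      Quotient.mk (decomposition a b h) (f x) ∉ Quotient.mk (decomposition a b h) '' S := by
    rintro x hx1 hx2 ⟨p, hp, hpx⟩
    have hrel : decomposition a b h p (f x) := Quotient.exact hpx
    have hpE := end_of_rel h hG.pair_ends (hG.ends x) hrel
    have hp1 := hSend p hp hpE
    rw [hp1] at hrel
    have := hfree x hx1 hx2 (lo w) ((decomposition a b h).symm hrel)
    exact hx1 w this
  have ha1 : ∀ u, cat (w ++ [false]) alt ≠ lo u := fun u => cat_alt_ne_lo _ u
  have ha2 : ∀ u, cat (w ++ [false]) alt ≠ hi u := fun u => cat_alt_ne_hi _ u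
  have hb1 : ∀ u, cat (w ++ [true]) alt ≠ lo u := fun u => cat_alt_ne_lo _ u
  have hb2 : ∀ u, cat (w ++ [true]) alt ≠ hi u := fun u => cat_alt_ne_hi _ u
  refine ⟨S, Quotient.mk _ (f (cat (w ++ [false]) alt)), Quotient.mk _ (f (cat (w ++ [true]) alt)),
    Quotient.mk _ (γ t0), hS, ?_⟩
  constructor
  · exact hclosed w
  · exact (hclosed _).union hScl
  · exact (hclosed _).union hScl
  · exact hconn w
  · exact (hconn _).union _ hmemhi hmemS hScon
  · exact (hconn _).union _ hmemlo hmemS hScon
  · exact ⟨cat [false] alt, by rw [Function.comp, Function.comp, ← cat_append]⟩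
  · exact ⟨cat [true] alt, by rw [Function.comp, Function.comp, ← cat_append]⟩
  · rintro ⟨x, hx⟩
    have hrel : decomposition a b h (γ t0) (f (cat w x)) := Quotient.exact hx.symm
    exact hnotend (end_of_rel h hG.pair_ends (hG.ends _) hrel)
  · left; exact ⟨alt, rfl⟩
  · right; exact ⟨_, hS0, rfl⟩
  · rintro (⟨x, hx⟩ | hx)
    · have hrel : decomposition a b h (f (cat (w ++ [false]) alt)) (f (cat (w ++ [true]) x)) :=
        Quotient.exact hx.symm
      exact cat_snoc_ne w _ _ (hfree _ ha1 ha2 _ hrel)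
    · exact hfreeS _ ha1 ha2 hx
  · left; exact ⟨alt, rfl⟩
  · right; exact ⟨_, hS0, rfl⟩
  · rintro (⟨x, hx⟩ | hx)
    · have hrel : decomposition a b h (f (cat (w ++ [true]) alt)) (f (cat (w ++ [false]) x)) :=
        Quotient.exact hx.symm
      exact cat_snoc_ne w _ _ (hfree _ hb1 hb2 _ hrel).symm
    · exact hfreeS _ hb1 hb2 hx

theorem triods_disjoint (hF : IsFan v) {f : (ℕ → Bool) → L} (hG : Glue v a b f)
    {S S' : Set L} (hS : ∀ p ∈ S, p ≠ v ∧ p ∈ seg v (f (lo [false, false])))
    (hS' : ∀ p ∈ S', p ≠ v ∧ p ∈ seg v (f (lo [true, true])))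
    {t : Quotient (decomposition a b h)}
    (ht : t ∈ piece h f [false, false] ∪ (piece h f ([false, false] ++ [true]) ∪
        Quotient.mk (decomposition a b h) '' S) ∪ (piece h f ([false, false] ++ [false]) ∪
        Quotient.mk (decomposition a b h) '' S))
    (ht' : t ∈ piece h f [true, true] ∪ (piece h f ([true, true] ++ [true]) ∪
        Quotient.mk (decomposition a b h) '' S') ∪ (piece h f ([true, true] ++ [false]) ∪
        Quotient.mk (decomposition a b h) '' S')) : False := by
  have hsub : ∀ (w : List Bool) (c : Bool), piece h f (w ++ [c]) ⊆ piece h f w := by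
    rintro w c _ ⟨x, rfl⟩
    exact ⟨cat [c] x, by rw [Function.comp, Function.comp, ← cat_append]; rfl⟩
  have hcase : ∀ w (R : Set L), t ∈ piece h f w ∪ (piece h f (w ++ [true]) ∪
        Quotient.mk (decomposition a b h) '' R) ∪ (piece h f (w ++ [false]) ∪
        Quotient.mk (decomposition a b h) '' R) →
      (∃ x, t = Quotient.mk _ (f (cat w x))) ∨ ∃ p ∈ R, t = Quotient.mk _ p := by
    intro w R hw
    have key : t ∈ piece h f w → ∃ x, t = Quotient.mk _ (f (cat w x)) := by
      rintro ⟨x, hx⟩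
      exact ⟨x, hx.symm⟩
    rcases hw with (hw | hw | ⟨p, hp, hpt⟩) | hw | ⟨p, hp, hpt⟩
    · left; exact key hw
    · left; exact key (hsub _ _ hw)
    · right; exact ⟨p, hp, hpt.symm⟩
    · left; exact key (hsub _ _ hw)
    · right; exact ⟨p, hp, hpt.symm⟩
  -- end points in `S`
  have hend : ∀ (w : List Bool) (p : L), p ∈ seg v (f (lo w)) → p ∈ Ends v → p = f (lo w) :=
    fun w p hp hpE => (hpE _ hp).symm
  -- the basic disjointness
  have hbasic : ∀ x y, ¬ decomposition a b h (f (cat [false, false] x)) (f (cat [true, true] y)) := by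
    intro x y hxy
    have c0 : cat [false, false] x 0 = false := rfl
    have c1 : cat [false, false] x 1 = false := rfl
    have d0 : cat [true, true] y 0 = true := rfl
    have d1 : cat [true, true] y 1 = true := rfl
    rcases hG.rel h hxy with h2 | ⟨u, ⟨h2, h3⟩ | ⟨h2, h3⟩⟩
    · rw [h2, d0] at c0
      exact Bool.false_ne_true c0.symm
    · rcases u with _ | ⟨c, u⟩
      · rw [h2] at c1
        have : lo [] 1 = true := rfl
        rw [this] at c1
        exact Bool.false_ne_true c1.symm
      · rw [h2] at c0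
        rw [h3] at d0
        have e1 : lo (c :: u) 0 = c := rfl
        have e2 : hi (c :: u) 0 = c := rfl
        rw [e1] at c0
        rw [e2, c0] at d0
        exact Bool.false_ne_true d0
    · rcases u with _ | ⟨c, u⟩
      · rw [h2] at c0
        have : hi [] 0 = true := rfl
        rw [this] at c0
        exact Bool.false_ne_true c0.symm
      · rw [h2] at c0
        rw [h3] at d0
        have e1 : lo (c :: u) 0 = c := rfl
        have e2 : hi (c :: u) 0 = c := rfl
        rw [e2] at c0
        rw [e1, c0] at d0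
        exact Bool.false_ne_true d0
  have hlo1 : lo [false, false] = cat [false, false] (cat [false] (fun _ => true)) := rfl
  have hlo2 : lo [true, true] = cat [true, true] (cat [false] (fun _ => true)) := rfl
  rcases hcase _ _ ht with ⟨x, hx⟩ | ⟨p, hp, hpt⟩ <;>
    rcases hcase _ _ ht' with ⟨y, hy⟩ | ⟨p', hp', hpt'⟩
  · exact hbasic x y (Quotient.exact (hx.symm.trans hy))
  · have hrel : decomposition a b h p' (f (cat [false, false] x)) :=
      Quotient.exact (hpt'.symm.trans hx)
    have hpE := end_of_rel h hG.pair_ends (hG.ends _) hrel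
    rw [hend _ p' (hS' p' hp').2 hpE, hlo2] at hrel
    exact hbasic _ _ ((decomposition a b h).symm hrel)
  · have hrel : decomposition a b h p (f (cat [true, true] y)) :=
      Quotient.exact (hpt.symm.trans hy)
    have hpE := end_of_rel h hG.pair_ends (hG.ends _) hrel
    rw [hend _ p (hS p hp).2 hpE, hlo1] at hrel
    exact hbasic _ _ hrel
  · have hrel : decomposition a b h p p' := Quotient.exact (hpt.symm.trans hpt')
    rcases (rel_iff h).mp hrel with h2 | h2
    · -- the same point
      have h3 : Comp v (f (lo [false, false])) (f (lo [true, true])) := by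
        apply Comp.trans hF (hS p hp).1
        · right; exact (hS p hp).2
        · left; rw [h2]; exact (hS' p' hp').2
      have h4 := h3.eq_of_Ends (hG.ends _) (hG.ends _)
      have h5 : decomposition a b h (f (lo [false, false])) (f (lo [true, true])) := Or.inl h4
      rw [hlo1, hlo2] at h5
      exact hbasic _ _ h5
    · have hpE : p ∈ Ends v := by
        obtain ⟨i, ⟨h3, _⟩ | ⟨h3, _⟩⟩ := h2
        · rw [h3]; exact (hG.pair_ends i).1
        · rw [h3]; exact (hG.pair_ends i).2
      have hpE' : p' ∈ Ends v := by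
        obtain ⟨i, ⟨_, h3⟩ | ⟨_, h3⟩⟩ := h2
        · rw [h3]; exact (hG.pair_ends i).2
        · rw [h3]; exact (hG.pair_ends i).1
      rw [hend _ p (hS p hp).2 hpE, hend _ p' (hS' p' hp').2 hpE', hlo1, hlo2] at hrel
      exact hbasic _ _ hrel

/-- Homeomorphisms preserve triods. -/
theorem TriodLike.image {X Y : Type*} [TopologicalSpace X] [TopologicalSpace Y] {C₁ C₂ C₃ : Set X}
    {x y z : X} (hC : TriodLike C₁ C₂ C₃ x y z) (φ : X ≃ₜ Y) :
    TriodLike (φ '' C₁) (φ '' C₂) (φ '' C₃) (φ x) (φ y) (φ z) where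
  closed₁ := φ.isClosedMap _ hC.closed₁
  closed₂ := φ.isClosedMap _ hC.closed₂
  closed₃ := φ.isClosedMap _ hC.closed₃
  conn₁ := hC.conn₁.image _ φ.continuous.continuousOn
  conn₂ := hC.conn₂.image _ φ.continuous.continuousOn
  conn₃ := hC.conn₃.image _ φ.continuous.continuousOn
  x₁ := mem_image_of_mem _ hC.x₁
  y₁ := mem_image_of_mem _ hC.y₁
  z₁ := by rw [φ.injective.mem_set_image]; exact hC.z₁
  y₂ := mem_image_of_mem _ hC.y₂
  z₂ := mem_image_of_mem _ hC.z₂
  x₂ := by rw [φ.injective.mem_set_image]; exact hC.x₂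
  x₃ := mem_image_of_mem _ hC.x₃
  z₃ := mem_image_of_mem _ hC.z₃
  y₃ := by rw [φ.injective.mem_set_image]; exact hC.y₃

end Triods

/-- For every Lelek fan `L` there are two pairings, both null (the distances `dist (a i) (b i)` tend
to zero) and both with an upper semicontinuous decomposition, whose quotient spaces are not
homeomorphic. -/
theorem result {L : Type u} [MetricSpace L] [CompactSpace L] [ConnectedSpace L] {v : L}
    (hL : IsLelekFan v) :
    ∃ (a b a' b' : ℕ → L) (h : IsPairing a b) (h' : IsPairing a' b'),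
      IsUpperSemicontinuous (decomposition a b h) ∧
      IsUpperSemicontinuous (decomposition a' b' h') ∧
      Tendsto (fun i => dist (a i) (b i)) atTop (𝓝 0) ∧
      Tendsto (fun i => dist (a' i) (b' i)) atTop (𝓝 0) ∧
      IsEmpty (Quotient (decomposition a b h) ≃ₜ Quotient (decomposition a' b' h')) := by
  obtain ⟨a, b, ε, hE, hai, hbi, hab, had, hbd, hnull, hch, hsep, hclose⟩ := exists_nice hL
  obtain ⟨f, a', b', hf, hfi, hfE, h', hE', hnull', hgl, hleft, hright⟩ := exists_second hL
  have h : IsPairing a b := ⟨fun i => isEndpoint_of_mem_Ends hL.fan (hE i).1,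
    fun i => isEndpoint_of_mem_Ends hL.fan (hE i).2, hai, hbi, hab, had, hbd⟩
  have hN : Nice v a b ε := ⟨hE, hch, hsep, hclose⟩
  have hG : Glue v a' b' f := ⟨hf, hfi, hfE, hE', hgl, hleft, hright⟩
  have hu := usc_of_null h hnull
  have hu' := usc_of_null h' hnull'
  refine ⟨a, b, a', b', h, h', hu, hu', hnull, hnull', ⟨fun φ => ?_⟩⟩
  have := t2_quotient h hu
  have := t2_quotient h' hu'
  obtain ⟨S, x, y, z, hS, hT⟩ := exists_triod h' hL.fan hG [false, false]
  obtain ⟨S', x', y', z', hS', hT'⟩ := exists_triod h' hL.fan hG [true, true]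
  have h1 := nice_no_triod h hL.fan hL.smooth hN (hT.image φ.symm)
  have h2 := nice_no_triod h hL.fan hL.smooth hN (hT'.image φ.symm)
  rw [← image_union, ← image_union] at h1 h2
  obtain ⟨t, ht, htv⟩ := h1
  obtain ⟨t', ht', htv'⟩ := h2
  have htt : t = t' := φ.symm.injective (htv.trans htv'.symm)
  rw [← htt] at ht'
  exact triods_disjoint h' hL.fan hG hS hS' ht ht'

end Pool.Agent.Results.MP_211c6f_gt.NullPairings
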